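import Pool.Agent.W781.LW.Stm
import Pool.Agent.W351.LWEmb

/-!
The frozen statements S06087 and S05813 from the main theorem.
-/

set_option autoImplicit false

open Matrix

namespace Pool.Agent.W351.LWFam

open Pool.Agent.W781.LW Pool.Agent.W351.LWEmb

theorem fro_phi (K : Type) [RCLike K] {n : ℕ} (A : Matrix (Fin n) (Fin n) K) :
    fro (A.map (phi K)) = ∑ i, ∑ j, ‖A i j‖ ^ 2 := phi_fro K A

theorem com_phi (K : Type) [RCLike K] {n : ℕ} (A B : Matrix (Fin n) (Fin n) K) :
    com (A.map (phi K)) (B.map (phi K)) = (A * B - B * A).map (phi K) := by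
  unfold com
  rw [phi_sub, phi_mul, phi_mul]

theorem tr_phi (K : Type) [RCLike K] {n : ℕ} (A B : Matrix (Fin n) (Fin n) K) :
    trace (A.map (phi K) * (B.map (phi K))ᴴ) = phi K (trace (A * Bᴴ)) := by
  rw [phi_conjTranspose, ← phi_mul, phi_trace]

theorem f06087 (hM : S_MAIN) : S_06087 := by
  intro K _ n k B C hC
  have h1 := hM n k (B.map (phi K)) (fun a => (C a).map (phi K))
    (⨆ a : Fin k, ∑ i : Fin n, ∑ j : Fin n, ‖C a i j‖ ^ 2)
    (Real.iSup_nonneg (fun a => Finset.sum_nonneg (fun i _ => Finset.sum_nonneg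
      (fun j _ => sq_nonneg _))))
    (by
      intro a b hab
      rw [tr_phi, hC a b hab, map_zero])
    (by
      intro a
      rw [fro_phi]
      exact le_ciSup (f := fun a : Fin k => ∑ i : Fin n, ∑ j : Fin n, ‖C a i j‖ ^ 2)
        (Set.finite_range _).bddAbove a)
  simp only [com_phi, fro_phi] at h1
  exact h1

theorem hs_bound (K : Type) [RCLike K] {n : ℕ} (X : Matrix (Fin n) (Fin n) K) :
    (∑ i, ∑ j, ∑ p, ∑ q, ‖(if q = j then X i p else 0) - (if p = i then X q j else 0)‖ ^ 2) ≤
      2 * (n : ℝ) * ∑ i, ∑ j, ‖X i j‖ ^ 2 := by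
  have h1 : ∀ i j p q : Fin n,
      ‖(if q = j then X i p else 0) - (if p = i then X q j else 0)‖ ^ 2 =
      (if q = j then ‖X i p‖ ^ 2 else 0) + (if p = i then ‖X q j‖ ^ 2 else 0) -
        2 * RCLike.re (if q = j then (if p = i then star (X i i) * X j j else 0) else 0) := by
    intro i j p q
    by_cases h1 : q = j
    · by_cases h2 : p = i
      · subst h1 h2
        rw [if_pos rfl, if_pos rfl, if_pos rfl, if_pos rfl, if_pos rfl, if_pos rfl,
          @norm_sub_sq K]
        rw [RCLike.inner_apply, RCLike.star_def, mul_comm]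
        ring
      · simp [h1, h2]
    · by_cases h2 : p = i
      · simp [h1, h2]
      · simp [h1, h2]
  simp only [h1, Finset.sum_sub_distrib, Finset.sum_add_distrib]
  have h2 : (∑ i : Fin n, ∑ j : Fin n, ∑ p : Fin n, ∑ q : Fin n,
      (if q = j then ‖X i p‖ ^ 2 else 0)) = (n : ℝ) * ∑ i, ∑ j, ‖X i j‖ ^ 2 := by
    simp only [Finset.sum_ite_eq', Finset.mem_univ, if_true, Finset.sum_const, Finset.card_univ,
      Fintype.card_fin, nsmul_eq_mul, Finset.mul_sum]
  have h3 : (∑ i : Fin n, ∑ j : Fin n, ∑ p : Fin n, ∑ q : Fin n,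
      (if p = i then ‖X q j‖ ^ 2 else 0)) = (n : ℝ) * ∑ i, ∑ j, ‖X i j‖ ^ 2 := by
    have e1 : ∀ i j : Fin n, (∑ p : Fin n, ∑ q : Fin n, (if p = i then ‖X q j‖ ^ 2 else 0)) =
        ∑ q : Fin n, ‖X q j‖ ^ 2 := by
      intro i j
      rw [Finset.sum_comm]
      simp
    simp only [e1, Finset.sum_const, Finset.card_univ, Fintype.card_fin, nsmul_eq_mul]
    rw [Finset.sum_comm]
  have h4 : (∑ i : Fin n, ∑ j : Fin n, ∑ p : Fin n, ∑ q : Fin n,
      2 * RCLike.re (if q = j then (if p = i then star (X i i) * X j j else 0) else 0)) =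
      2 * ‖∑ i, X i i‖ ^ 2 := by
    have e1 : ∀ i j : Fin n, (∑ p : Fin n, ∑ q : Fin n,
        2 * RCLike.re (if q = j then (if p = i then star (X i i) * X j j else 0) else 0)) =
        2 * RCLike.re (star (X i i) * X j j) := by
      intro i j
      rw [Finset.sum_eq_single_of_mem i (Finset.mem_univ i)]
      · rw [Finset.sum_eq_single_of_mem j (Finset.mem_univ j)]
        · rw [if_pos rfl, if_pos rfl]
        · intro q _ hq
          rw [if_neg hq]
          simp
      · intro p _ hp
        apply Finset.sum_eq_zero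
        intro q _
        rw [if_neg hp]
        simp
    simp only [e1]
    simp only [← Finset.mul_sum]
    congr 1
    have e2 : (∑ i : Fin n, ∑ j : Fin n, RCLike.re (star (X i i) * X j j)) =
        RCLike.re (star (∑ i, X i i) * ∑ j, X j j) := by
      rw [star_sum, Finset.sum_mul_sum, map_sum]
      apply Finset.sum_congr rfl
      intro i _
      rw [map_sum]
    rw [e2, RCLike.star_def, RCLike.conj_mul]
    norm_cast
  rw [h2, h3, h4]
  nlinarith [sq_nonneg ‖∑ i, X i i‖]

theorem bessel (K : Type) [RCLike K] {n m : ℕ} (X : Matrix (Fin n) (Fin n) K)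
    (Y : Fin m → Matrix (Fin n) (Fin n) K)
    (hY : ∀ a b : Fin m, ∑ i, ∑ j, star (Y a i j) * Y b i j = if a = b then (1 : K) else 0) :
    ∑ a, ∑ i, ∑ j, ‖(X * Y a - Y a * X) i j‖ ^ 2 ≤
      ∑ i, ∑ j, ∑ p, ∑ q, ‖(if q = j then X i p else 0) - (if p = i then X q j else 0)‖ ^ 2 := by
  classical
  let v : Fin m → EuclideanSpace K (Fin n × Fin n) :=
    fun a => WithLp.toLp 2 (fun pq => star (Y a pq.1 pq.2))
  let c : Fin n → Fin n → EuclideanSpace K (Fin n × Fin n) := fun i j =>
    WithLp.toLp 2 (fun pq => (if pq.2 = j then X i pq.1 else 0) - (if pq.1 = i then X pq.2 j else 0))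
  have hv : Orthonormal K v := by
    rw [orthonormal_iff_ite]
    intro a b
    have e1 : inner K (v a) (v b) = ∑ i, ∑ j, star (Y b i j) * Y a i j := by
      rw [PiLp.inner_apply, Fintype.sum_prod_type]
      apply Finset.sum_congr rfl
      intro i _
      apply Finset.sum_congr rfl
      intro j _
      rw [RCLike.inner_apply]
      simp [v]
    rw [e1, hY b a]
    by_cases h : a = b
    · rw [if_pos h, if_pos h.symm]
    · rw [if_neg h, if_neg (fun h2 => h h2.symm)]
  have hc : ∀ a i j, inner K (v a) (c i j) = (X * Y a - Y a * X) i j := by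
    intro a i j
    rw [PiLp.inner_apply, Fintype.sum_prod_type]
    have e1 : ∀ p q : Fin n, inner K ((v a).ofLp (p, q)) ((c i j).ofLp (p, q)) =
        (if q = j then X i p * Y a p q else 0) - (if p = i then Y a p q * X q j else 0) := by
      intro p q
      rw [RCLike.inner_apply]
      simp only [v, c, RCLike.star_def, RCLike.conj_conj]
      split_ifs <;> ring
    simp only [e1, Finset.sum_sub_distrib]
    rw [Matrix.sub_apply, Matrix.mul_apply, Matrix.mul_apply]
    congr 1
    · apply Finset.sum_congr rfl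
      intro p _
      rw [Finset.sum_ite_eq' Finset.univ j, if_pos (Finset.mem_univ j)]
    · rw [Finset.sum_comm]
      apply Finset.sum_congr rfl
      intro q _
      rw [Finset.sum_ite_eq' Finset.univ i, if_pos (Finset.mem_univ i)]
  have hn : ∀ i j, ‖c i j‖ ^ 2 =
      ∑ p, ∑ q, ‖(if q = j then X i p else 0) - (if p = i then X q j else 0)‖ ^ 2 := by
    intro i j
    rw [EuclideanSpace.norm_sq_eq, Fintype.sum_prod_type]
  rw [Finset.sum_comm]
  apply Finset.sum_le_sum
  intro i _
  rw [Finset.sum_comm]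
  apply Finset.sum_le_sum
  intro j _
  rw [← hn i j]
  have h1 := hv.sum_inner_products_le (c i j) (s := Finset.univ)
  refine le_trans (le_of_eq ?_) h1
  apply Finset.sum_congr rfl
  intro a _
  rw [hc]

theorem f05813 (hM : S_MAIN) : S_05813 := by
  intro K _ n X hX k m hk hmk Y hY
  split_ifs with hkn
  · have hfro : ∀ a, ∑ i, ∑ j, ‖Y a i j‖ ^ 2 = 1 := by
      intro a
      have h1 := hY a a
      rw [if_pos rfl] at h1
      have h2 := congrArg (RCLike.re : K → ℝ) h1
      rw [RCLike.one_re, map_sum] at h2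
      rw [← h2]
      apply Finset.sum_congr rfl
      intro i _
      rw [map_sum]
      apply Finset.sum_congr rfl
      intro j _
      rw [RCLike.star_def, RCLike.conj_mul]
      norm_cast
    have h1 := hM n m (X.map (phi K)) (fun a => (Y a).map (phi K)) 1 zero_le_one
      (by
        intro a b hab
        rw [tr_phi]
        have h2 := hY b a
        rw [if_neg (fun h => hab h.symm)] at h2
        have h3 : trace (Y a * (Y b)ᴴ) = 0 := by
          rw [← h2]
          unfold trace
          apply Finset.sum_congr rfl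
          intro i _
          rw [diag_apply, mul_apply]
          apply Finset.sum_congr rfl
          intro j _
          rw [conjTranspose_apply, mul_comm]
        rw [h3, map_zero])
      (by
        intro a
        rw [fro_phi, hfro])
    simp only [com_phi, fro_phi, hfro, hX] at h1
    refine le_trans h1 ?_
    simp only [Finset.sum_const, Finset.card_univ, Fintype.card_fin, nsmul_eq_mul, mul_one]
    have h2 : (m : ℝ) ≤ 2 * (k : ℝ) := by exact_mod_cast hmk
    linarith
  · refine le_trans (bessel K X Y hY) (le_trans (hs_bound K X) ?_)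
    rw [hX, mul_one]

end Pool.Agent.W351.LWFam
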