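import Pool.Agent.W518.PR.Stm

set_option autoImplicit false

/-! The sheaf of forms as a subsheaf (project PR, part WZ). -/

open CategoryTheory Pool.Agent.H907R3

namespace Pool.Agent.W351.PRWZ

open Pool.Agent.W518.PR

theorem exists_s : ∃ s : LamO →ₗ[K] Lam, ∀ t : Lam, s (Phi t) = gr * t := by
  obtain ⟨s, hs⟩ := exists_comp_eq (Phi.toLinearMap : Lam →ₗ[K] LamO) (LinearMap.mulLeft K gr) (by
    intro t ht
    rw [LinearMap.mem_ker] at ht ⊢
    exact (Phi_eq_zero_iff t).1 ht)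
  exact ⟨s, hs⟩

/-- the map on the exterior algebras, linear over the polynomial ring -/
noncomputable def sP (s : LamO →ₗ[K] Lam) : FO →ₗ[MP] FL where
  toFun := s
  map_add' := s.map_add
  map_smul' := fun p ω => s.map_smul (cub p) ω

lemma mem_ZP {s : LamO →ₗ[K] Lam} (hs : ∀ t : Lam, s (Phi t) = gr * t) {q : ℕ} {b : ℤ}
    {I : Finset (Fin 6)} {w : FO} (hw : w ∈ WP q b I) : sP s w ∈ ZP (q + 1) (b + 1) I := by
  have hw' : (show LamO from w) ∈ W q I (Gm b) := hw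
  obtain ⟨t, ht, htw⟩ := mem_W.1 hw'
  have h1 : sP s w = gr * t := by
    rw [← hs t]
    exact congrArg s htw.symm
  have h2 : gr * t ∈ Z (q + 1) I (Gm (b + 1)) := by
    rw [mem_Z]
    refine ⟨gr_mem ?_ ht, gr_gr t⟩
    intro d hd
    have h3 : b ≤ d := hd.1
    have h4 : (3 : ℤ) ∣ d - b := hd.2
    exact ⟨by omega, by omega⟩
  rw [h1]
  exact h2

lemma sP_inj {s : LamO →ₗ[K] Lam} (hs : ∀ t : Lam, s (Phi t) = gr * t) {q : ℕ} {b : ℤ}
    {I : Finset (Fin 6)} {w : FO} (hw : w ∈ WP q b I) (h0 : sP s w = 0) : w = 0 := by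
  have hw' : (show LamO from w) ∈ W q I (Gm b) := hw
  obtain ⟨t, ht, htw⟩ := mem_W.1 hw'
  have h1 : sP s w = gr * t := by
    rw [← hs t]
    exact congrArg s htw.symm
  rw [h0] at h1
  have h2 := (Phi_eq_zero_iff t).2 h1.symm
  exact htw.symm.trans h2

lemma sP_surj {s : LamO →ₗ[K] Lam} (hs : ∀ t : Lam, s (Phi t) = gr * t) {q : ℕ} {b : ℤ}
    {I : Finset (Fin 6)} (hI : I.Nonempty) {w : FL} (hw : w ∈ ZP (q + 1) (b + 1) I) :
    ∃ v : FO, v ∈ WP q b I ∧ sP s v = w := by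
  obtain ⟨i, hi⟩ := hI
  have hw' : (show Lam from w) ∈ Z (q + 1) I (Gm (b + 1)) := hw
  obtain ⟨hw1, hw2⟩ := mem_Z.1 hw'
  have ht : ctr i (show Lam from w) ∈ T q I (Gm b) := by
    refine ctr_mem (by rw [Finset.insert_eq_of_mem hi]) ?_ hw1
    intro d hd
    have h3 : b + 1 ≤ d := hd.1
    have h4 : (3 : ℤ) ∣ d - (b + 1) := hd.2
    exact ⟨by omega, by omega⟩
  refine ⟨Phi (ctr i (show Lam from w)), mem_W.2 ⟨_, ht, rfl⟩, ?_⟩
  have h1 := ctr_gr i (show Lam from w)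
  rw [hw2, map_zero] at h1
  have h2 : gr * ctr i (show Lam from w) = (show Lam from w) := (sub_eq_zero.1 h1.symm).symm
  exact (hs _).trans h2

/-- the chain map -/
noncomputable def phi {s : LamO →ₗ[K] Lam} (hs : ∀ t : Lam, s (Phi t) = gr * t) (q : ℕ) (b : ℤ) :
    ModCx.Hom (CW q b) (CZ (q + 1) (b + 1)) where
  f n :=
    { toFun := fun c => (⟨fun k => sP s ((show cochains (WP q b) n from c).1 k),
        fun k => mem_ZP hs ((show cochains (WP q b) n from c).2 k)⟩ :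
          cochains (ZP (q + 1) (b + 1)) n)
      map_add' := fun c c' => Subtype.ext (funext fun k => map_add (sP s) _ _)
      map_smul' := fun p c => Subtype.ext (funext fun k => map_smul (sP s) p _) }
  comm n a := Subtype.ext
    (dd_map (sP s).toAddMonoidHom (show cochains (WP q b) n from a).1).symm

lemma phi_apply {s : LamO →ₗ[K] Lam} (hs : ∀ t : Lam, s (Phi t) = gr * t) (q : ℕ) (b : ℤ) (n : ℕ)
    (c : (CW q b).X n) (k : Fin (n + 1) → Fin 6) :
    (show cochains (ZP (q + 1) (b + 1)) n from (phi hs q b).f n c).1 k =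
      sP s ((show cochains (WP q b) n from c).1 k) := rfl

lemma phi_surj {s : LamO →ₗ[K] Lam} (hs : ∀ t : Lam, s (Phi t) = gr * t) (q : ℕ) (b : ℤ) (n : ℕ)
    (c : (CZ (q + 1) (b + 1)).X n) : ∃ a, (phi hs q b).f n a = c := by
  have h : ∀ k : Fin (n + 1) → Fin 6, ∃ v : FO, v ∈ WP q b (img k) ∧
      sP s v = (show cochains (ZP (q + 1) (b + 1)) n from c).1 k := fun k =>
    sP_surj hs (img_nonempty k) ((show cochains (ZP (q + 1) (b + 1)) n from c).2 k)
  choose v hv hsv using h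
  exact ⟨(⟨v, hv⟩ : cochains (WP q b) n), Subtype.ext (funext hsv)⟩

lemma phi_inj {s : LamO →ₗ[K] Lam} (hs : ∀ t : Lam, s (Phi t) = gr * t) (q : ℕ) (b : ℤ) (n : ℕ) :
    Function.Injective ((phi hs q b).f n) := by
  rw [injective_iff_map_eq_zero]
  intro a ha
  refine Subtype.ext (funext fun k => ?_)
  refine sP_inj hs ((show cochains (WP q b) n from a).2 k) ?_
  have h1 := congrArg (fun c : (CZ (q + 1) (b + 1)).X n =>
    (show cochains (ZP (q + 1) (b + 1)) n from c).1 k) ha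
  exact h1

theorem main : S_wz := by
  intro q b
  obtain ⟨s, hs⟩ := exists_s
  refine ⟨phi hs q b, phi_inj hs q b, fun c _ => phi_surj hs q b 0 c, ?_⟩
  intro n c _
  obtain ⟨a, ha⟩ := phi_surj hs q b (n + 1) c
  refine ⟨a, 0, ?_⟩
  rw [ha, map_zero, add_zero]

end Pool.Agent.W351.PRWZ
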