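import Pool.Agent.W351.GS11

set_option autoImplicit false

namespace Pool.Agent.W351.GS

open Subgroup

theorem Ws_map {G G' : Type*} [Group G] [Group G'] (φ : G →* G') (l : List G) :
    Ws (l.map φ) = (Ws l).map φ := by
  induction l with
  | nil => simp [Ws]
  | cons s l ih =>
    rw [List.map_cons, Ws, Ws, ih, List.map_append, List.map_map, List.map_map]
    congr 1
    refine List.map_congr_left fun a _ => ?_
    simp

theorem Sep.map {G G' : Type*} [Group G] [Group G'] (φ : G →* G') (hφ : Function.Surjective φ)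
    (l : List G) (H : Subgroup G') (hs : Sep l (H.comap φ)) : Sep (l.map φ) H := by
  intro g'
  obtain ⟨g, rfl⟩ := hφ g'
  have hnd : (Ws l).Nodup := List.Nodup.of_map _ (hs g)
  rw [Ws_map, List.map_map]
  refine hnd.map_on fun w hw w' hw' hww' => List.inj_on_of_nodup_map (hs g) hw hw' ?_
  simp only [Function.comp] at hww'
  rw [QuotientGroup.eq] at hww' ⊢
  rw [mem_comap]
  convert hww' using 1
  simp

theorem Dbl_of_torsion {G : Type*} [Group G] (N H : Subgroup G) [N.Normal] (hNH : N ≤ H)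
    (hH : H.index ≠ 0) (ht : ∀ g : G, ∃ e : ℕ, g ^ 2 ^ e ∈ N) : Dbl H := by
  intro L hL hL2
  have hfi : H.FiniteIndex := ⟨hH⟩
  have hNc : N ≤ H.normalCore := by
    rw [Subgroup.normal_le_normalCore]; exact hNH
  refine exists_double H.normalCore (finiteIndex_normalCore H).index_ne_zero ?_ L
    ((normalCore_le H).trans hL) hL2
  intro x
  obtain ⟨g, rfl⟩ := QuotientGroup.mk'_surjective _ x
  obtain ⟨e, he⟩ := ht g
  refine ⟨e, ?_⟩
  rw [← map_pow]
  exact (QuotientGroup.eq_one_iff _).2 (hNc he)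

theorem final : ∃ (R : Set F3) (deg : F3 → ℕ),
    (∀ r ∈ R, MonoidAlgebra.of (ZMod 2) F3 r - 1 ∈ M F3 ^ deg r) ∧
    Summable (fun r : R => (2 / 5 : ℝ) ^ deg (r : F3)) ∧
    ∑' r : R, (2 / 5 : ℝ) ^ deg (r : F3) ≤ 1 / 10 ∧
    ∀ ε : ℝ, 0 < ε → ∃ N : ℕ, ∀ n : ℕ, N ≤ n →
      ((Set.ncard {H : Subgroup (F3 ⧸ Subgroup.normalClosure R) |
          H.index ≠ 0 ∧ H.index ≤ n} : ℕ) : ℝ) ≤ Real.exp (ε * (n : ℝ)) := by
  classical
  obtain ⟨R, deg, h1, h2, h3, h4, h5⟩ := relators
  refine ⟨R, deg, h1, h2, h3, ?_⟩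
  set φ := QuotientGroup.mk' (Subgroup.normalClosure R) with hφ
  have hφs : Function.Surjective φ := QuotientGroup.mk'_surjective _
  have hφ1 : ∀ r ∈ R, φ r = 1 := fun r hr =>
    (QuotientGroup.eq_one_iff _).2 (subset_normalClosure hr)
  have hD : ∀ K : Subgroup (F3 ⧸ Subgroup.normalClosure R), K.index ≠ 0 → Dbl K := by
    intro K hK
    refine Dbl_of_torsion ⊥ K bot_le hK fun g => ?_
    obtain ⟨g, rfl⟩ := hφs g
    obtain ⟨e, he⟩ := h4 g
    refine ⟨e, ?_⟩
    rw [mem_bot, ← map_pow]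
    exact hφ1 _ he
  have hX : closure ((S3.image φ : Finset (F3 ⧸ Subgroup.normalClosure R)) :
      Set (F3 ⧸ Subgroup.normalClosure R)) = ⊤ := by
    rw [Finset.coe_image, ← MonoidHom.map_closure, closure_S3, ← MonoidHom.range_eq_map,
      MonoidHom.range_eq_top]
    exact hφs
  have hX3 : (S3.image φ).card ≤ 3 := Finset.card_image_le.trans card_S3.le
  refine subexp (S3.image φ) hX hX3 hD ?_
  intro k hk
  obtain ⟨j₀, hj₀⟩ := h5 k hk
  refine ⟨j₀, fun H hH hjH => ?_⟩
  have hidx : (H.comap φ).index = H.index := H.index_comap_of_surjective hφs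
  obtain ⟨l, hl1, hl2, hl3, hl4⟩ := hj₀ (H.comap φ)
    (Dbl_of_torsion (Subgroup.normalClosure R) (H.comap φ)
      (by
        intro x hx
        rw [mem_comap, show φ x = 1 from (QuotientGroup.eq_one_iff _).2 hx]
        exact one_mem _)
      (by rw [hidx]; exact hH)
      (fun g => by
        obtain ⟨e, he⟩ := h4 g
        exact ⟨e, subset_normalClosure he⟩))
    (by rw [hidx]; exact hH) (by rw [hidx]; exact hjH)
  have hcomm : ∀ a b : F3, a * b * a⁻¹ * b⁻¹ ∈ R → φ a * φ b = φ b * φ a := by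
    intro a b hab
    have h := hφ1 _ hab
    rw [map_mul, map_mul, map_mul, map_inv, map_inv, mul_inv_eq_one, mul_inv_eq_iff_eq_mul] at h
    exact h
  obtain ⟨T, hT1, hT2⟩ := gen (S3.image φ) hX H hH (l.map φ)
    (by
      intro a ha b hb
      obtain ⟨a, ha', rfl⟩ := List.mem_map.1 ha
      obtain ⟨b, hb', rfl⟩ := List.mem_map.1 hb
      exact hcomm a b (hl2 a ha' b hb'))
    (by
      intro a ha b hb x hx
      obtain ⟨a, ha', rfl⟩ := List.mem_map.1 ha
      obtain ⟨b, hb', rfl⟩ := List.mem_map.1 hb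
      obtain ⟨x, hx', rfl⟩ := Finset.mem_image.1 hx
      have h := hcomm a (x * b * x⁻¹) (hl3 a ha' b hb' x hx')
      rw [map_mul, map_mul, map_inv] at h
      exact h)
    (hl4.map φ hφs l H)
  refine ⟨T, hT1, ?_⟩
  rw [List.length_map, hl1] at hT2
  refine hT2.trans (Nat.mul_le_mul_right _ ?_)
  calc k + k * (S3.image φ).card + (S3.image φ).card ≤ k + k * 3 + 3 := by
        have := Nat.mul_le_mul_left k hX3
        omega
    _ = 4 * k + 3 := by ring

end Pool.Agent.W351.GS
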