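import Pool.Agent.W510.CG.Stm

set_option autoImplicit false

/-! Overgroups preserve the relation of their subgroup (project CG, part PRES). -/

namespace Pool.Agent.W351.CGPres

open Pool.Agent.W510.CG

section Gen

variable {L : Type} [AddCommGroup L] [LinearOrder L] [IsOrderedAddMonoid L]

theorem Z_H {H : Subgroup (Equiv.Perm (Pt L))} (hH : Iso L ≤ H) {E : Set (Pt L)}
    (h : Z (br : (L →₀ ℤ) × L → Pt L → Option ℤ) (Iso L) E) :
    Z (br : (L →₀ ℤ) × L → Pt L → Option ℤ) H E := by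
  obtain ⟨g, hg, γ, hi⟩ := h
  exact ⟨g, hH hg, γ, hi⟩

theorem set2 (a b c d : Pt L) : ({a, c, b, d} : Set (Pt L)) = {a, b, c, d} := by
  ext x
  simp only [Set.mem_insert_iff, Set.mem_singleton_iff]
  tauto

theorem set3 (a b c d : Pt L) : ({a, d, b, c} : Set (Pt L)) = {a, b, c, d} := by
  ext x
  simp only [Set.mem_insert_iff, Set.mem_singleton_iff]
  tauto

theorem d2 {a b c d : Pt L} (h : Dist4 a b c d) : Dist4 a c b d := by
  obtain ⟨h1, h2, h3, h4, h5, h6⟩ := h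
  exact ⟨h2, h1, h3, h4.symm, h6, h5⟩

theorem d3 {a b c d : Pt L} (h : Dist4 a b c d) : Dist4 a d b c := by
  obtain ⟨h1, h2, h3, h4, h5, h6⟩ := h
  exact ⟨h3, h1, h2, h5.symm, h6.symm, h4⟩

/-- difference of the levels -/
noncomputable def bt (a b x : Pt L) : L := w a x - w b x

theorem bt2 (a b c d : Pt L) : bt a b c - bt a b d = -Y a c b d := by
  unfold bt Y
  rw [w_comm c b]
  abel

theorem bt3 (a b c d : Pt L) : bt a b c - bt a b d = Y a d b c := by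
  unfold bt Y
  rw [w_comm d b]
  abel

theorem bt0 {a b c d : Pt L} (h : w a c + w b d = w a d + w b c) :
    bt a b c - bt a b d = 0 := by
  unfold bt
  have h1 : w a c - w b c - (w a d - w b d) = (w a c + w b d) - (w a d + w b c) := by abel
  rw [h1, h, sub_self]

theorem lem (h1 : S_CL) (h2 : S_ZSTD) (H : Subgroup (Equiv.Perm (Pt L))) (Γ : AddSubgroup L)
    (hH : Iso L ≤ H)
    (hΓ : ∀ l : L, 0 < l → (Z (br : (L →₀ ℤ) × L → Pt L → Option ℤ) H (std l) ↔ l ∈ Γ))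
    (a b x e : Pt L) (hd : Dist4 a b x e)
    (hZ : Z (br : (L →₀ ℤ) × L → Pt L → Option ℤ) H {a, b, x, e}) :
    bt a b x - bt a b e ∈ Γ := by
  rcases h1 L a b x e hd with ⟨-, h⟩ | ⟨hY, -⟩ | ⟨hY, -⟩ | ⟨-, -, h⟩
  · rw [bt0 h]
    exact Γ.zero_mem
  · rw [bt2]
    refine Γ.neg_mem ((hΓ _ hY).1 ?_)
    refine (h2 L H hH a x b e (d2 hd) hY).1 ?_
    rw [set2]
    exact hZ
  · rw [bt3]
    refine (hΓ _ hY).1 ?_
    refine (h2 L H hH a e b x (d3 hd) hY).1 ?_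
    rw [set3]
    exact hZ
  · rw [bt0 h]
    exact Γ.zero_mem

/-- the invariant relation -/
def PP (H : Subgroup (Equiv.Perm (Pt L))) (a b c d : Pt L) : Prop :=
  Dist4 a b c d ∧ ¬ Z (br : (L →₀ ℤ) × L → Pt L → Option ℤ) H {a, b, c, d} ∧
    ∃ e : Pt L, e ≠ a ∧ e ≠ b ∧ e ≠ c ∧ e ≠ d ∧
      Z (br : (L →₀ ℤ) × L → Pt L → Option ℤ) H {a, b, c, e} ∧
      Z (br : (L →₀ ℤ) × L → Pt L → Option ℤ) H {a, b, d, e}

theorem im4 (h : Equiv.Perm (Pt L)) (a b c d : Pt L) :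
    (h '' {a, b, c, d} : Set (Pt L)) = {h a, h b, h c, h d} := by
  rw [Set.image_insert_eq, Set.image_insert_eq, Set.image_insert_eq, Set.image_singleton]

theorem PP_map {H : Subgroup (Equiv.Perm (Pt L))} {h : Equiv.Perm (Pt L)} (hh : h ∈ H)
    {a b c d : Pt L} (hP : PP H a b c d) : PP H (h a) (h b) (h c) (h d) := by
  obtain ⟨⟨d1, d2, d3, d4, d5, d6⟩, hn, e, e1, e2, e3, e4, z1, z2⟩ := hP
  have inj := h.injective
  refine ⟨⟨inj.ne d1, inj.ne d2, inj.ne d3, inj.ne d4, inj.ne d5, inj.ne d6⟩, ?_, h e,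
    inj.ne e1, inj.ne e2, inj.ne e3, inj.ne e4, ?_, ?_⟩
  · rw [← im4, Z_image_iff hh]
    exact hn
  · rw [← im4, Z_image_iff hh]
    exact z1
  · rw [← im4, Z_image_iff hh]
    exact z2

theorem brz (x : Pt L) (hx : ∃ f : L →₀ ℤ, x = some f ∧ ∀ μ : L, 0 < μ → f μ = 0) :
    ∃ f : L →₀ ℤ, x = some f ∧ br (γ0 L) x = some (f 0) := by
  obtain ⟨f, rfl, hf⟩ := hx
  refine ⟨f, rfl, ?_⟩
  rw [br_some_of]
  · rfl
  · intro μ hμ
    have h0 : (γ0 L).1 μ = 0 := rfl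
    rw [h0]
    exact hf μ hμ

theorem br_o : br (γ0 L) o = some 0 := by
  unfold o
  rw [br_some_of]
  · rfl
  · intro μ _
    rfl

theorem br_s (z : ℤ) : br (γ0 L) (some (Finsupp.single 0 z)) = some z := by
  rw [br_some_of]
  · change some ((Finsupp.single (0 : L) z) 0) = some z
    rw [Finsupp.single_eq_same]
  · intro μ hμ
    have h0 : (γ0 L).1 μ = 0 := rfl
    rw [h0, Finsupp.single_eq_of_ne]
    exact ne_of_gt hμ

theorem br_d (l : L) (hl : 0 < l) : br (γ0 L) (δ l) = none := by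
  unfold δ
  rw [br_some_not]
  intro h
  have h1 := h l hl
  rw [Finsupp.single_eq_same] at h1
  have h0 : (γ0 L).1 l = 0 := rfl
  rw [h0] at h1
  exact one_ne_zero h1

/-- four points with different labels -/
theorem Z_of_labels (H : Subgroup (Equiv.Perm (Pt L))) (a b c d : Pt L)
    (h1 : br (γ0 L) a = some 0) (h2 : br (γ0 L) b = some 1) (h3 : br (γ0 L) c = none)
    (h4 : br (γ0 L) d = some 2) :
    Z (br : (L →₀ ℤ) × L → Pt L → Option ℤ) H {a, b, c, d} := by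
  refine ⟨1, H.one_mem, γ0 L, ?_⟩
  intro x hx y hy hxy
  simp only [Set.mem_insert_iff, Set.mem_singleton_iff] at hx hy
  simp only [Equiv.Perm.coe_one, id_eq] at hxy
  rcases hx with rfl | rfl | rfl | rfl <;> rcases hy with rfl | rfl | rfl | rfl <;>
    first
      | rfl
      | (exfalso; simp only [h1, h2, h3, h4] at hxy; revert hxy; decide)

theorem D_to_PP (h2 : S_ZSTD) (h3 : S_STD4) (H : Subgroup (Equiv.Perm (Pt L)))
    (Γ : AddSubgroup L) (hH : Iso L ≤ H)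
    (hΓ : ∀ l : L, 0 < l → (Z (br : (L →₀ ℤ) × L → Pt L → Option ℤ) H (std l) ↔ l ∈ Γ))
    (a b c d : Pt L) (hD : D (Γ : Set L) a b c d) : PP H a b c d := by
  obtain ⟨hd, hY, hYn⟩ := hD
  refine ⟨hd, ?_, ?_⟩
  · intro hZ
    exact hYn ((hΓ _ hY).1 ((h2 L H hH a b c d hd hY).1 hZ))
  · obtain ⟨g, hg, ga, gb, gc, gd⟩ := h3 L a b c d hd hY
    obtain ⟨e', he'⟩ : ∃ e' : Pt L, e' = some (Finsupp.single (0 : L) (2 : ℤ)) := ⟨_, rfl⟩
    have hbe : br (γ0 L) e' = some 2 := by rw [he']; exact br_s 2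
    have hb0 : br (γ0 L) (δ 0 : Pt L) = some 1 := br_s 1
    have hge : g (g⁻¹ e') = e' := by simp
    have hne : ∀ x : Pt L, br (γ0 L) (g x) ≠ some 2 → g⁻¹ e' ≠ x := by
      intro x hx h
      apply hx
      rw [← h, hge]
      exact hbe
    refine ⟨g⁻¹ e', hne a ?_, hne b ?_, hne c ?_, hne d ?_, ?_, ?_⟩
    · rw [ga, br_o]
      decide
    · rw [gb, hb0]
      decide
    · rw [gc, br_none]
      decide
    · rw [gd, br_d _ hY]
      decide
    · rw [← Z_image_iff (hH hg), im4, ga, gb, gc, hge]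
      exact Z_of_labels H _ _ _ _ br_o hb0 (br_none _) hbe
    · rw [← Z_image_iff (hH hg), im4, ga, gb, gd, hge]
      exact Z_of_labels H _ _ _ _ br_o hb0 (br_d _ hY) hbe

theorem PP_to_D (h1 : S_CL) (h2 : S_ZSTD) (H : Subgroup (Equiv.Perm (Pt L)))
    (Γ : AddSubgroup L) (hH : Iso L ≤ H)
    (hΓ : ∀ l : L, 0 < l → (Z (br : (L →₀ ℤ) × L → Pt L → Option ℤ) H (std l) ↔ l ∈ Γ))
    (a b c d : Pt L) (hP : PP H a b c d) : D (Γ : Set L) a b c d := by
  obtain ⟨hd, hn, e, e1, e2, e3, e4, z1, z2⟩ := hP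
  have hmem : bt a b c - bt a b d ∈ Γ := by
    have m1 := lem h1 h2 H Γ hH hΓ a b c e ⟨hd.1, hd.2.1, e1.symm, hd.2.2.2.1, e2.symm, e3.symm⟩ z1
    have m2 := lem h1 h2 H Γ hH hΓ a b d e
      ⟨hd.1, hd.2.2.1, e1.symm, hd.2.2.2.2.1, e2.symm, e4.symm⟩ z2
    have m3 := Γ.sub_mem m1 m2
    have h4 : bt a b c - bt a b e - (bt a b d - bt a b e) = bt a b c - bt a b d := by abel
    rwa [h4] at m3
  rcases h1 L a b c d hd with ⟨hY, -⟩ | ⟨hY, -⟩ | ⟨hY, -⟩ | ⟨hZ, -, -⟩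
  · refine ⟨hd, hY, ?_⟩
    intro hm
    exact hn ((h2 L H hH a b c d hd hY).2 ((hΓ _ hY).2 hm))
  · exfalso
    rw [bt2] at hmem
    have h5 : Y a c b d ∈ Γ := by
      have := Γ.neg_mem hmem
      rwa [neg_neg] at this
    have h6 := (h2 L H hH a c b d (d2 hd) hY).2 ((hΓ _ hY).2 h5)
    rw [set2] at h6
    exact hn h6
  · exfalso
    rw [bt3] at hmem
    have h6 := (h2 L H hH a d b c (d3 hd) hY).2 ((hΓ _ hY).2 hmem)
    rw [set3] at h6
    exact hn h6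
  · exact absurd (Z_H hH hZ) hn

end Gen

theorem main1 (h1 : S_CL) (h2 : S_ZSTD) : S_ALL4 := by
  intro L _ _ _ H hH hs a b c d hd
  rcases h1 L a b c d hd with ⟨hY, -⟩ | ⟨hY, -⟩ | ⟨hY, -⟩ | ⟨hZ, -, -⟩
  · exact (h2 L H hH a b c d hd hY).2 (hs _ hY)
  · have h6 := (h2 L H hH a c b d (d2 hd) hY).2 (hs _ hY)
    rw [set2] at h6
    exact h6
  · have h6 := (h2 L H hH a d b c (d3 hd) hY).2 (hs _ hY)
    rw [set3] at h6
    exact h6
  · exact Z_H hH hZ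

theorem main (h1 : S_CL) (h2 : S_ZSTD) (h3 : S_STD4) : S_PRES := by
  intro L _ _ _ H Γ hH hΓ h hh
  rw [mem_Aut]
  intro a b c d
  constructor
  · intro hD
    have hP := D_to_PP h2 h3 H Γ hH hΓ _ _ _ _ hD
    have hP2 := PP_map (H.inv_mem hh) hP
    have he : ∀ x : Pt L, h⁻¹ (h x) = x := fun x => by simp
    simp only [he] at hP2
    exact PP_to_D h1 h2 H Γ hH hΓ _ _ _ _ hP2
  · intro hD
    have hP := D_to_PP h2 h3 H Γ hH hΓ _ _ _ _ hD
    exact PP_to_D h1 h2 H Γ hH hΓ _ _ _ _ (PP_map hh hP)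

end Pool.Agent.W351.CGPres
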