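import Mathlib

set_option autoImplicit false

namespace Pool.Agent.W351.GS

open Subgroup MonoidAlgebra

/-- the augmentation ideal of the group algebra over the field with two elements -/
noncomputable def M (G : Type*) [Group G] : Submodule (ZMod 2) (MonoidAlgebra (ZMod 2) G) :=
  Submodule.span (ZMod 2) (Set.range fun g : G => MonoidAlgebra.of (ZMod 2) G g - 1)

/-- powers of the augmentation ideal, with the whole algebra in degree zero -/
noncomputable def P (G : Type*) [Group G] (m : ℕ) : Submodule (ZMod 2) (MonoidAlgebra (ZMod 2) G) :=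
  M G ^ m * ⊤

variable {G : Type*} [Group G]

theorem top_eq : (⊤ : Submodule (ZMod 2) (MonoidAlgebra (ZMod 2) G)) =
    Submodule.span (ZMod 2) (Set.range fun g : G => MonoidAlgebra.of (ZMod 2) G g) := by
  rw [eq_comm, eq_top_iff]
  intro x _
  induction x using MonoidAlgebra.induction_on with
  | of g => exact Submodule.subset_span ⟨g, rfl⟩
  | add f g hf hg => exact Submodule.add_mem _ (hf trivial) (hg trivial)
  | smul r f hf => exact Submodule.smul_mem _ _ (hf trivial)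

theorem of_sub_one_mem_M (g : G) : of (ZMod 2) G g - 1 ∈ M G := Submodule.subset_span ⟨g, rfl⟩

theorem top_mul_M : ⊤ * M G ≤ M G := by
  rw [top_eq]
  nth_rewrite 1 [M]
  rw [Submodule.span_mul_span, Submodule.span_le]
  rintro _ ⟨_, ⟨g, rfl⟩, _, ⟨h, rfl⟩, rfl⟩
  have : of (ZMod 2) G g * (of (ZMod 2) G h - 1) =
      (of (ZMod 2) G (g * h) - 1) - (of (ZMod 2) G g - 1) := by
    rw [map_mul]; noncomm_ring
  show of (ZMod 2) G g * (of (ZMod 2) G h - 1) ∈ M G
  rw [this]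
  exact Submodule.sub_mem _ (of_sub_one_mem_M _) (of_sub_one_mem_M _)

theorem M_mul_top : M G * ⊤ ≤ M G := by
  rw [top_eq]
  nth_rewrite 1 [M]
  rw [Submodule.span_mul_span, Submodule.span_le]
  rintro _ ⟨_, ⟨g, rfl⟩, _, ⟨h, rfl⟩, rfl⟩
  have : (of (ZMod 2) G g - 1) * of (ZMod 2) G h =
      (of (ZMod 2) G (g * h) - 1) - (of (ZMod 2) G h - 1) := by
    rw [map_mul]; noncomm_ring
  show (of (ZMod 2) G g - 1) * of (ZMod 2) G h ∈ M G
  rw [this]
  exact Submodule.sub_mem _ (of_sub_one_mem_M _) (of_sub_one_mem_M _)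

theorem P_zero : P G 0 = ⊤ := by
  rw [P, pow_zero, one_mul]

theorem P_mul_top (m : ℕ) : P G m * ⊤ ≤ P G m := by
  rw [P, mul_assoc]
  exact mul_le_mul' le_rfl le_top

theorem top_mul_P (m : ℕ) : ⊤ * P G m ≤ P G m := by
  cases m with
  | zero => rw [P_zero]; exact le_top
  | succ m =>
    rw [P, pow_succ', mul_assoc, ← mul_assoc ⊤]
    exact mul_le_mul' top_mul_M le_rfl

theorem P_mul_P (m n : ℕ) : P G m * P G n ≤ P G (m + n) := by
  calc P G m * P G n = M G ^ m * (⊤ * P G n) := by rw [P, mul_assoc]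
    _ ≤ M G ^ m * P G n := mul_le_mul' le_rfl (top_mul_P n)
    _ = P G (m + n) := by rw [P, P, pow_add, mul_assoc]

theorem P_succ_eq (m : ℕ) : P G (m + 1) = M G ^ (m + 1) := by
  apply le_antisymm
  · rw [P, pow_succ, mul_assoc]
    exact mul_le_mul' le_rfl M_mul_top
  · calc M G ^ (m + 1) = M G ^ (m + 1) * 1 := (mul_one _).symm
      _ ≤ _ := mul_le_mul' le_rfl le_top

theorem P_one : P G 1 = M G := by simpa using P_succ_eq (G := G) 0

theorem P_anti {m n : ℕ} (h : m ≤ n) : P G n ≤ P G m := by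
  obtain ⟨k, rfl⟩ := Nat.exists_eq_add_of_le h
  calc P G (m + k) = M G ^ m * (M G ^ k * ⊤) := by rw [P, pow_add, mul_assoc]
    _ ≤ _ := mul_le_mul' le_rfl le_top

theorem mul_mem_P {m n : ℕ} {a b : MonoidAlgebra (ZMod 2) G} (ha : a ∈ P G m) (hb : b ∈ P G n) :
    a * b ∈ P G (m + n) := P_mul_P m n (Submodule.mul_mem_mul ha hb)

theorem mul_mem_P_left {m : ℕ} {a : MonoidAlgebra (ZMod 2) G} (b : MonoidAlgebra (ZMod 2) G)
    (ha : a ∈ P G m) : b * a ∈ P G m :=
  top_mul_P m (Submodule.mul_mem_mul trivial ha)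

theorem mul_mem_P_right {m : ℕ} {a : MonoidAlgebra (ZMod 2) G} (b : MonoidAlgebra (ZMod 2) G)
    (ha : a ∈ P G m) : a * b ∈ P G m :=
  P_mul_top m (Submodule.mul_mem_mul ha trivial)

/-- dimension subgroups -/
def D (G : Type*) [Group G] (m : ℕ) : Subgroup G where
  carrier := {g | of (ZMod 2) G g - 1 ∈ P G m}
  one_mem' := by
    show of (ZMod 2) G 1 - 1 ∈ P G m
    rw [map_one, sub_self]; exact Submodule.zero_mem _
  mul_mem' := by
    intro a b ha hb
    show of (ZMod 2) G (a * b) - 1 ∈ P G m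
    have : of (ZMod 2) G (a * b) - 1 = (of (ZMod 2) G a - 1) * of (ZMod 2) G b +
      (of (ZMod 2) G b - 1) := by rw [map_mul]; noncomm_ring
    rw [this]
    exact Submodule.add_mem _ (mul_mem_P_right _ ha) hb
  inv_mem' := by
    intro a ha
    show of (ZMod 2) G a⁻¹ - 1 ∈ P G m
    have h1 : of (ZMod 2) G a⁻¹ * of (ZMod 2) G a = 1 := by rw [← map_mul, inv_mul_cancel, map_one]
    have : of (ZMod 2) G a⁻¹ - 1 = - (of (ZMod 2) G a⁻¹ * (of (ZMod 2) G a - 1)) := by
      rw [mul_sub, h1]; noncomm_ring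
    rw [this]
    exact Submodule.neg_mem _ (mul_mem_P_left _ ha)

theorem mem_D {m : ℕ} {g : G} : g ∈ D G m ↔ of (ZMod 2) G g - 1 ∈ P G m := Iff.rfl

theorem D_anti {m n : ℕ} (h : m ≤ n) : D G n ≤ D G m := fun _ hg => P_anti h hg

theorem D_one : D G 1 = ⊤ := by
  rw [eq_top_iff]
  intro g _
  rw [mem_D, P_one]
  exact of_sub_one_mem_M g

theorem D_zero : D G 0 = ⊤ := by
  rw [eq_top_iff, ← D_one]
  exact D_anti (Nat.zero_le 1)

instance D_normal (m : ℕ) : (D G m).Normal := by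
  constructor
  intro n hn g
  rw [mem_D] at hn ⊢
  have h1 : of (ZMod 2) G g * of (ZMod 2) G g⁻¹ = 1 := by rw [← map_mul, mul_inv_cancel, map_one]
  have : of (ZMod 2) G (g * n * g⁻¹) - 1 =
      of (ZMod 2) G g * ((of (ZMod 2) G n - 1) * of (ZMod 2) G g⁻¹) := by
    rw [map_mul, map_mul, sub_mul, one_mul, mul_sub, h1, mul_assoc]
  rw [this]
  exact mul_mem_P_left _ (mul_mem_P_right _ hn)

/-- commutators are deep -/
theorem comm_mem_D {m n : ℕ} {g h : G} (hg : g ∈ D G m) (hh : h ∈ D G n) :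
    g * h * g⁻¹ * h⁻¹ ∈ D G (m + n) := by
  rw [mem_D] at hg hh ⊢
  have h1 : of (ZMod 2) G h * of (ZMod 2) G g * (of (ZMod 2) G g⁻¹ * of (ZMod 2) G h⁻¹) = 1 := by
    rw [← map_mul, ← map_mul, ← map_mul]
    rw [show h * g * (g⁻¹ * h⁻¹) = 1 by group, map_one]
  have : of (ZMod 2) G (g * h * g⁻¹ * h⁻¹) - 1 =
      ((of (ZMod 2) G g - 1) * (of (ZMod 2) G h - 1) -
        (of (ZMod 2) G h - 1) * (of (ZMod 2) G g - 1)) *
        (of (ZMod 2) G g⁻¹ * of (ZMod 2) G h⁻¹) := by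
    nth_rewrite 1 [← h1]
    simp only [map_mul]
    noncomm_ring
  rw [this]
  refine mul_mem_P_right _ (Submodule.sub_mem _ (mul_mem_P hg hh) ?_)
  rw [add_comm m n]
  exact mul_mem_P hh hg

theorem sq_sub_one (g : G) : of (ZMod 2) G (g ^ 2) - 1 =
    (of (ZMod 2) G g - 1) * (of (ZMod 2) G g - 1) := by
  have h2 : (of (ZMod 2) G g : MonoidAlgebra (ZMod 2) G) + of (ZMod 2) G g = 0 := by
    rw [← two_smul (ZMod 2), show (2 : ZMod 2) = 0 from rfl, zero_smul]
  have h3 : (1 : MonoidAlgebra (ZMod 2) G) + 1 = 0 := by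
    rw [← two_smul (ZMod 2), show (2 : ZMod 2) = 0 from rfl, zero_smul]
  have : (of (ZMod 2) G g - 1) * (of (ZMod 2) G g - 1) =
      of (ZMod 2) G (g ^ 2) - 1 - (of (ZMod 2) G g + of (ZMod 2) G g) + (1 + 1) := by
    rw [map_pow]; noncomm_ring
  rw [this, h2, h3]; simp

theorem sq_mem_D {m : ℕ} {g : G} (hg : g ∈ D G m) : g ^ 2 ∈ D G (m + m) := by
  rw [mem_D] at hg ⊢
  rw [sq_sub_one]
  exact mul_mem_P hg hg

theorem pow_mem_D (g : G) (e : ℕ) : g ^ 2 ^ e ∈ D G (2 ^ e) := by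
  induction e with
  | zero => rw [pow_zero, pow_one, D_one]; trivial
  | succ e ih =>
    rw [pow_succ, pow_mul, mul_two]
    exact sq_mem_D ih

end Pool.Agent.W351.GS
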