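import Pool.Agent.W351.GS9

set_option autoImplicit false

namespace Pool.Agent.W351.GS

open Subgroup

theorem sum_two_pow_le (j : ℕ) : ∑ i ∈ Finset.range j, 2 ^ i ≤ 2 ^ j := by
  induction j with
  | zero => simp
  | succ j ih => rw [Finset.sum_range_succ, pow_succ]; omega

theorem exists_k (ε : ℝ) (hε : 0 < ε) : ∃ k : ℕ, 1 ≤ k ∧ ((4 * k + 3 : ℕ) : ℝ) / 2 ^ k < ε := by
  have h1 : Filter.Tendsto (fun k : ℕ => ((4 * k + 3 : ℕ) : ℝ) / 2 ^ k) Filter.atTop (nhds 0) := by
    have ha := tendsto_pow_const_div_const_pow_of_one_lt 1 (show (1 : ℝ) < 2 by norm_num)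
    have hb := tendsto_pow_const_div_const_pow_of_one_lt 0 (show (1 : ℝ) < 2 by norm_num)
    have hc := (ha.const_mul 4).add (hb.const_mul 3)
    rw [mul_zero, mul_zero, add_zero] at hc
    refine hc.congr fun k => ?_
    push_cast
    ring
  obtain ⟨k, hk⟩ := ((h1.eventually_lt_const hε).and (Filter.eventually_ge_atTop 1)).exists
  exact ⟨k, hk.2, hk.1⟩

theorem subexp {G : Type*} [Group G] (X : Finset G) (hX : closure (X : Set G) = ⊤)
    (hX3 : X.card ≤ 3) (hD : ∀ K : Subgroup G, K.index ≠ 0 → Dbl K)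
    (h : ∀ k : ℕ, 1 ≤ k → ∃ j₀ : ℕ, ∀ H : Subgroup G, H.index ≠ 0 → 2 ^ j₀ ≤ H.index →
      ∃ T : Finset G, closure (T : Set G) = H ∧ 2 ^ k * T.card ≤ (4 * k + 3) * H.index)
    (ε : ℝ) (hε : 0 < ε) : ∃ N : ℕ, ∀ n : ℕ, N ≤ n →
      ((Set.ncard {H : Subgroup G | H.index ≠ 0 ∧ H.index ≤ n} : ℕ) : ℝ) ≤
        Real.exp (ε * (n : ℝ)) := by
  classical
  obtain ⟨k, hk1, hk⟩ := exists_k (ε / 2) (by positivity)
  obtain ⟨j₀, hj₀⟩ := h k hk1
  set g : ℕ → ℕ := fun j => if j < j₀ then 3 * 2 ^ j else ((4 * k + 3) * 2 ^ j) / 2 ^ k with hg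
  have hfg : Group.FG G := by
    rw [Group.fg_iff]; exact ⟨X, hX, X.finite_toSet⟩
  have hcount := fun j => count (N := (⊥ : Subgroup G)) g
    (fun K _ hK1 hK2 => hD K hK1 K le_rfl hK2)
    (by
      intro j K _ hKj
      by_cases hjj : j < j₀
      · have : K.FiniteIndex := ⟨by rw [hKj]; positivity⟩
        obtain ⟨T, hT1, hT2⟩ := Subgroup.exists_finset_card_le_mul K hX
        refine ⟨T.image K.subtype, ?_, ?_⟩
        swap
        · rw [Finset.coe_image, ← MonoidHom.map_closure, hT2, ← MonoidHom.range_eq_map,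
            Subgroup.range_subtype, sup_bot_eq]
        simp only [hg, hjj, if_true]
        refine Finset.card_image_le.trans ?_
        calc T.card ≤ K.index * X.card := hT1
          _ ≤ 2 ^ j * 3 := by rw [hKj]; exact Nat.mul_le_mul_left _ hX3
          _ = 3 * 2 ^ j := mul_comm _ _
      · obtain ⟨T, hT1, hT2⟩ := hj₀ K (by rw [hKj]; positivity)
          (by rw [hKj]; exact Nat.pow_le_pow_right (by norm_num) (not_lt.1 hjj))
        refine ⟨T, ?_, by rw [hT1, sup_bot_eq]⟩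
        simp only [hg, hjj, if_false]
        rw [Nat.le_div_iff_mul_le (by positivity), mul_comm, ← hKj]
        exact hT2) j
  -- the bound for the sum
  have hsum : ∀ j, ((∑ i ∈ Finset.range j, g i : ℕ) : ℝ) ≤
      3 * 2 ^ j₀ + ((4 * k + 3 : ℕ) : ℝ) / 2 ^ k * 2 ^ j := by
    intro j
    have h1 : ∀ i, (g i : ℝ) ≤ (if i < j₀ then 3 * 2 ^ i else 0) +
        ((4 * k + 3 : ℕ) : ℝ) / 2 ^ k * 2 ^ i := by
      intro i
      by_cases hi : i < j₀
      · simp only [hg, hi, if_true]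
        push_cast
        have : (0 : ℝ) ≤ (4 * k + 3) / 2 ^ k * 2 ^ i := by positivity
        linarith
      · simp only [hg, hi, if_false, zero_add]
        refine Nat.cast_div_le.trans (le_of_eq ?_)
        push_cast
        ring
    push_cast
    refine (Finset.sum_le_sum fun i _ => h1 i).trans ?_
    rw [Finset.sum_add_distrib]
    have e1 : ∑ i ∈ Finset.range j, (if i < j₀ then 3 * 2 ^ i else 0 : ℝ) ≤ 3 * 2 ^ j₀ := by
      rw [← Finset.sum_filter]
      calc ∑ i ∈ (Finset.range j).filter (fun i => i < j₀), (3 * 2 ^ i : ℝ)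
          ≤ ∑ i ∈ Finset.range j₀, (3 * 2 ^ i : ℝ) := by
            refine Finset.sum_le_sum_of_subset_of_nonneg (fun i hi => ?_)
              (fun i _ _ => by positivity)
            simp only [Finset.mem_filter, Finset.mem_range] at hi ⊢
            exact hi.2
        _ = 3 * ((∑ i ∈ Finset.range j₀, 2 ^ i : ℕ) : ℝ) := by
            rw [← Finset.mul_sum]; push_cast; rfl
        _ ≤ 3 * ((2 ^ j₀ : ℕ) : ℝ) := by
            have := sum_two_pow_le j₀
            have : ((∑ i ∈ Finset.range j₀, 2 ^ i : ℕ) : ℝ) ≤ ((2 ^ j₀ : ℕ) : ℝ) := by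
              exact_mod_cast this
            linarith
        _ = 3 * 2 ^ j₀ := by push_cast; rfl
    refine add_le_add e1 ?_
    rw [← Finset.mul_sum]
    have e2 : ∑ i ∈ Finset.range j, (2 : ℝ) ^ i ≤ 2 ^ j := by
      have := sum_two_pow_le j
      exact_mod_cast this
    have e3 : (0 : ℝ) ≤ ((4 * k + 3 : ℕ) : ℝ) / 2 ^ k := by positivity
    push_cast at e3 ⊢
    exact mul_le_mul_of_nonneg_left e2 e3
  set A : ℝ := 3 * 2 ^ j₀ with hA
  refine ⟨⌈16 * Real.exp A / ε ^ 2⌉₊ + 1, fun n hn => ?_⟩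
  have hn1 : 1 ≤ n := by omega
  have hnR : 16 * Real.exp A / ε ^ 2 ≤ n := by
    have := Nat.le_ceil (16 * Real.exp A / ε ^ 2)
    refine this.trans ?_
    exact_mod_cast (by omega : ⌈16 * Real.exp A / ε ^ 2⌉₊ ≤ n)
  have hn1R : (1 : ℝ) ≤ n := by exact_mod_cast hn1
  set l := Nat.log 2 n with hl
  have hsub : {H : Subgroup G | H.index ≠ 0 ∧ H.index ≤ n} ⊆
      ⋃ j ∈ Finset.range (l + 1), {K : Subgroup G | (⊥ : Subgroup G) ≤ K ∧ K.index = 2 ^ j} := by
    rintro H ⟨h1, h2⟩
    obtain ⟨b, hb⟩ := index_pow (hD H h1) h1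
    simp only [Set.mem_iUnion, Finset.mem_range, Set.mem_ofPred_eq]
    refine ⟨b, ?_, bot_le, hb⟩
    have : b ≤ l := by
      rw [hl]
      refine Nat.le_log_of_pow_le (by norm_num) (by rw [← hb]; exact h2)
    omega
  have hcard : Set.ncard {H : Subgroup G | H.index ≠ 0 ∧ H.index ≤ n} ≤
      ∑ j ∈ Finset.range (l + 1), 2 ^ ∑ i ∈ Finset.range j, g i := by
    refine (Set.ncard_le_ncard hsub ?_).trans ?_
    · exact Set.Finite.biUnion (Finset.finite_toSet _) fun j _ => (hcount j).1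
    · refine (Finset.set_ncard_biUnion_le _ _).trans ?_
      exact Finset.sum_le_sum fun j _ => (hcount j).2
  have hcard2 : Set.ncard {H : Subgroup G | H.index ≠ 0 ∧ H.index ≤ n} ≤
      (n + 1) * 2 ^ ∑ i ∈ Finset.range l, g i := by
    refine hcard.trans ?_
    have : ∀ j ∈ Finset.range (l + 1), 2 ^ ∑ i ∈ Finset.range j, g i ≤
        2 ^ ∑ i ∈ Finset.range l, g i := by
      intro j hj
      rw [Finset.mem_range] at hj
      refine Nat.pow_le_pow_right (by norm_num) ?_
      refine Finset.sum_le_sum_of_subset ?_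
      intro i hi
      rw [Finset.mem_range] at hi ⊢
      omega
    refine (Finset.sum_le_card_nsmul _ _ _ this).trans ?_
    rw [Finset.card_range, smul_eq_mul]
    refine Nat.mul_le_mul_right _ ?_
    have : l < n := Nat.log_lt_self 2 (by omega)
    omega
  have h2l : (2 : ℝ) ^ l ≤ n := by
    have := Nat.pow_log_le_self 2 (show n ≠ 0 by omega)
    exact_mod_cast this
  have hexp : ∀ a : ℕ, (2 : ℝ) ^ a ≤ Real.exp a := by
    intro a
    have h1 : (2 : ℝ) ≤ Real.exp 1 := by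
      have := Real.add_one_le_exp (1 : ℝ)
      linarith
    calc (2 : ℝ) ^ a ≤ (Real.exp 1) ^ a := pow_le_pow_left₀ (by norm_num) h1 a
      _ = Real.exp a := by rw [← Real.exp_nat_mul, mul_one]
  have h3 : ((Set.ncard {H : Subgroup G | H.index ≠ 0 ∧ H.index ≤ n} : ℕ) : ℝ) ≤
      (n + 1) * Real.exp (A + ε / 2 * n) := by
    have h4 : ((Set.ncard {H : Subgroup G | H.index ≠ 0 ∧ H.index ≤ n} : ℕ) : ℝ) ≤
        (n + 1) * 2 ^ ∑ i ∈ Finset.range l, g i := by exact_mod_cast hcard2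
    refine h4.trans (mul_le_mul_of_nonneg_left ?_ (by positivity))
    refine (hexp _).trans (Real.exp_le_exp.2 ((hsum l).trans ?_))
    refine add_le_add le_rfl ?_
    exact mul_le_mul hk.le h2l (by positivity) (by positivity)
  refine h3.trans ?_
  have h5 : (ε * n / 2) ^ 2 / 2 ≤ Real.exp (ε * n / 2) := by
    have := Real.quadratic_le_exp_of_nonneg (show 0 ≤ ε * n / 2 by positivity)
    have h6 : 0 ≤ ε * n / 2 := by positivity
    linarith
  have h7 : (n + 1) * Real.exp A ≤ Real.exp (ε * n / 2) := by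
    refine le_trans ?_ h5
    rw [div_le_iff₀ (by positivity)] at hnR
    have h8 : 0 < Real.exp A := Real.exp_pos A
    nlinarith
  calc (n + 1) * Real.exp (A + ε / 2 * n) = ((n + 1) * Real.exp A) * Real.exp (ε / 2 * n) := by
        rw [Real.exp_add]; ring
    _ ≤ Real.exp (ε * n / 2) * Real.exp (ε / 2 * n) :=
        mul_le_mul_of_nonneg_right h7 (Real.exp_pos _).le
    _ = Real.exp (ε * n) := by rw [← Real.exp_add]; congr 1; ring

end Pool.Agent.W351.GS
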