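import Pool.Agent.W351.GS10

set_option autoImplicit false

namespace Pool.Agent.W351.GS

open Subgroup ENNReal

/-- the free group of rank three -/
abbrev F3 : Type := FreeGroup (Fin 3)

/-- the standard generators -/
noncomputable def S3 : Finset F3 := by
  classical
  exact Finset.univ.image FreeGroup.of

theorem closure_S3 : closure (S3 : Set F3) = ⊤ := by
  classical
  rw [S3, Finset.coe_image, Finset.coe_univ, Set.image_univ]
  exact FreeGroup.closure_range_of (Fin 3)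

theorem card_S3 : S3.card = 3 := by
  classical
  rw [S3, Finset.card_image_of_injective _ FreeGroup.of_injective, Finset.card_univ,
    Fintype.card_fin]

/-- a set of elements with weights, indexed by a type, whose total weight is small -/
theorem of_family {ι : Type} (r : ι → F3) (n : ι → ℕ)
    (hr : ∀ i, MonoidAlgebra.of (ZMod 2) F3 (r i) - 1 ∈ M F3 ^ n i) (c : ℝ)
    (hc : ∑' i, ENNReal.ofReal ((2 / 5 : ℝ) ^ n i) ≤ ENNReal.ofReal c) (hc0 : 0 ≤ c) :
    ∃ deg : F3 → ℕ, (∀ x ∈ Set.range r, MonoidAlgebra.of (ZMod 2) F3 x - 1 ∈ M F3 ^ deg x) ∧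
      Summable (fun x : Set.range r => (2 / 5 : ℝ) ^ deg (x : F3)) ∧
      ∑' x : Set.range r, (2 / 5 : ℝ) ^ deg (x : F3) ≤ c := by
  classical
  have hex : ∀ x : F3, ∃ d : ℕ, ∀ hx : x ∈ Set.range r, d = n hx.choose := by
    intro x
    by_cases hx : x ∈ Set.range r
    · exact ⟨n hx.choose, fun _ => rfl⟩
    · exact ⟨0, fun h => absurd h hx⟩
  choose deg hdeg using hex
  have hle : ∑' x : Set.range r, ENNReal.ofReal ((2 / 5 : ℝ) ^ deg (x : F3)) ≤
      ENNReal.ofReal c := by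
    refine le_trans ?_ hc
    have hinj : Function.Injective fun x : Set.range r => (x.2.choose : ι) := by
      intro x y hxy
      have h1 := x.2.choose_spec
      have h2 := y.2.choose_spec
      apply Subtype.ext
      rw [← h1, ← h2]
      exact congrArg r hxy
    refine le_trans (le_of_eq ?_) (ENNReal.tsum_comp_le_tsum_of_injective hinj
      (fun i => ENNReal.ofReal ((2 / 5 : ℝ) ^ n i)))
    refine tsum_congr fun x => ?_
    rw [hdeg x.1 x.2]
  have hs : Summable (fun x : Set.range r => (2 / 5 : ℝ) ^ deg (x : F3)) := by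
    have h1 : ∑' x : Set.range r, ENNReal.ofReal ((2 / 5 : ℝ) ^ deg (x : F3)) ≠ ⊤ :=
      (hle.trans_lt ENNReal.ofReal_lt_top).ne
    refine (ENNReal.summable_toReal h1).congr fun x => ?_
    rw [ENNReal.toReal_ofReal (by positivity)]
  refine ⟨deg, fun x hx => ?_, hs, ?_⟩
  · rw [hdeg x hx]
    have h1 := hr hx.choose
    rwa [hx.choose_spec] at h1
  · have h1 := ENNReal.ofReal_tsum_of_nonneg (f := fun x : Set.range r =>
      (2 / 5 : ℝ) ^ deg (x : F3)) (fun _ => by positivity) hs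
    rw [← h1] at hle
    exact (ENNReal.ofReal_le_ofReal_iff hc0).1 hle

theorem mem_M_of_mem_D {G : Type*} [Group G] {g : G} {n : ℕ} (hn : 1 ≤ n) (hg : g ∈ D G n) :
    MonoidAlgebra.of (ZMod 2) G g - 1 ∈ M G ^ n := by
  obtain ⟨m, rfl⟩ : ∃ m, n = m + 1 := ⟨n - 1, by omega⟩
  rw [mem_D, P_succ_eq] at hg
  exact hg

theorem relators : ∃ (R : Set F3) (deg : F3 → ℕ),
    (∀ r ∈ R, MonoidAlgebra.of (ZMod 2) F3 r - 1 ∈ M F3 ^ deg r) ∧
    Summable (fun r : R => (2 / 5 : ℝ) ^ deg (r : F3)) ∧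
    ∑' r : R, (2 / 5 : ℝ) ^ deg (r : F3) ≤ 1 / 10 ∧
    (∀ g : F3, ∃ e : ℕ, g ^ 2 ^ e ∈ R) ∧
    (∀ k, 1 ≤ k → ∃ j₀ : ℕ, ∀ H : Subgroup F3, Dbl H → H.index ≠ 0 → 2 ^ j₀ ≤ H.index →
      ∃ l : List F3, l.length = k ∧ (∀ a ∈ l, ∀ b ∈ l, a * b * a⁻¹ * b⁻¹ ∈ R) ∧
        (∀ a ∈ l, ∀ b ∈ l, ∀ x ∈ S3, a * (x * b * x⁻¹) * a⁻¹ * (x * b * x⁻¹)⁻¹ ∈ R) ∧
        Sep l H) := by
  classical
  -- the weights
  set δ : ℕ → ℝ := fun m => (1 / 40) * (1 / 2) ^ m with hδ
  have hfam := fun m : ℕ => famK S3 closure_S3 card_S3 (m + 1) (by omega)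
    (δ m / (4 * (m + 1) ^ 2)) (by positivity)
  choose T j₀ hT1 hT2 hT3 using hfam
  obtain ⟨enc, henc⟩ := exists_injective_nat F3
  -- the index type
  let ι : Type := F3 ⊕ (Σ m : ℕ, {q : List F3 × ℕ // q ∈ T m} × Fin (m + 1) × Fin (m + 1) ×
    Option (Fin 3))
  let lget : (m : ℕ) → (q : {q : List F3 × ℕ // q ∈ T m}) → Fin (m + 1) → F3 := fun m q i =>
    q.1.1.get (i.cast (hT1 m q.1 q.2).1.symm)
  let cj : Option (Fin 3) → F3 → F3 := fun x b => match x with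
    | none => b
    | some x => FreeGroup.of x * b * (FreeGroup.of x)⁻¹
  let r : ι → F3 := fun i => match i with
    | Sum.inl g => g ^ 2 ^ (enc g + 4)
    | Sum.inr ⟨m, q, i, j, x⟩ => lget m q i * cj x (lget m q j) * (lget m q i)⁻¹ *
        (cj x (lget m q j))⁻¹
  let n : ι → ℕ := fun i => match i with
    | Sum.inl g => 2 ^ (enc g + 4)
    | Sum.inr ⟨m, q, _, _, _⟩ => 2 * q.1.2
  have hlD : ∀ m q i, lget m q i ∈ D F3 q.1.2 := fun m q i =>
    (hT1 m q.1 q.2).2.1 _ (List.get_mem _ _)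
  have hcj : ∀ x b m, b ∈ D F3 m → cj x b ∈ D F3 m := by
    intro x b m hb
    have := D_normal (G := F3) m
    rcases x with _ | x
    · exact hb
    · exact this.conj_mem b hb _
  have hr : ∀ i, MonoidAlgebra.of (ZMod 2) F3 (r i) - 1 ∈ M F3 ^ n i := by
    rintro (g | ⟨m, q, i, j, x⟩)
    · exact mem_M_of_mem_D (Nat.one_le_two_pow) (pow_mem_D g (enc g + 4))
    · have hq := (hT1 m q.1 q.2).2.2
      refine mem_M_of_mem_D (show 1 ≤ 2 * q.1.2 by omega) ?_
      have h := comm_mem_D (hlD m q i) (hcj x _ _ (hlD m q j))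
      rw [← two_mul] at h
      exact h
  -- total weight of the torsion relators
  have hw1 : ∑' g : F3, ENNReal.ofReal ((2 / 5 : ℝ) ^ (2 ^ (enc g + 4))) ≤
      ENNReal.ofReal (1 / 20) := by
    refine (ENNReal.tsum_comp_le_tsum_of_injective henc
      (fun n => ENNReal.ofReal ((2 / 5 : ℝ) ^ (2 ^ (n + 4))))).trans ?_
    have h1 : ∑' n : ℕ, ENNReal.ofReal ((2 / 5 : ℝ) ^ (2 ^ (n + 4))) ≤
        ∑' n : ℕ, ENNReal.ofReal ((2 / 5 : ℝ) ^ 4 * (2 / 5 : ℝ) ^ n) := by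
      refine ENNReal.tsum_le_tsum fun n => ENNReal.ofReal_le_ofReal ?_
      rw [← pow_add]
      refine pow_le_pow_of_le_one (by norm_num) (by norm_num) ?_
      have := Nat.lt_two_pow_self (n := n + 4)
      omega
    refine h1.trans ?_
    have hs : Summable fun n : ℕ => (2 / 5 : ℝ) ^ 4 * (2 / 5 : ℝ) ^ n :=
      (summable_geometric_of_lt_one (by norm_num) (by norm_num)).mul_left _
    rw [← ENNReal.ofReal_tsum_of_nonneg (fun _ => by positivity) hs, tsum_mul_left,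
      tsum_geometric_of_lt_one (by norm_num) (by norm_num)]
    exact ENNReal.ofReal_le_ofReal (by norm_num)
  have hw2 : ∑' i : (Σ m : ℕ, {q : List F3 × ℕ // q ∈ T m} × Fin (m + 1) × Fin (m + 1) ×
      Option (Fin 3)), ENNReal.ofReal ((2 / 5 : ℝ) ^ n (Sum.inr i)) ≤ ENNReal.ofReal (1 / 20) := by
    rw [ENNReal.tsum_sigma']
    have h1 : ∀ m : ℕ, ∑' i : {q : List F3 × ℕ // q ∈ T m} × Fin (m + 1) × Fin (m + 1) ×
        Option (Fin 3), ENNReal.ofReal ((2 / 5 : ℝ) ^ n (Sum.inr ⟨m, i⟩)) ≤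
        ENNReal.ofReal (δ m) := by
      intro m
      rw [tsum_fintype, ← ENNReal.ofReal_sum_of_nonneg (fun _ _ => by positivity)]
      refine ENNReal.ofReal_le_ofReal ?_
      have h2 : ∑ i : {q : List F3 × ℕ // q ∈ T m} × Fin (m + 1) × Fin (m + 1) ×
          Option (Fin 3), (2 / 5 : ℝ) ^ n (Sum.inr ⟨m, i⟩) =
          (4 * (m + 1) ^ 2) * ∑ q ∈ T m, (4 / 25 : ℝ) ^ q.2 := by
        rw [Fintype.sum_prod_type]
        have h3 : ∀ q : {q : List F3 × ℕ // q ∈ T m}, ∑ y : Fin (m + 1) × Fin (m + 1) ×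
            Option (Fin 3), (2 / 5 : ℝ) ^ n (Sum.inr ⟨m, (q, y)⟩) =
            (4 * (m + 1) ^ 2) * (4 / 25 : ℝ) ^ q.1.2 := by
          intro q
          have h4 : ∀ y : Fin (m + 1) × Fin (m + 1) × Option (Fin 3),
              (2 / 5 : ℝ) ^ n (Sum.inr ⟨m, (q, y)⟩) = (4 / 25 : ℝ) ^ q.1.2 := by
            rintro ⟨i, j, x⟩
            show (2 / 5 : ℝ) ^ (2 * q.1.2) = _
            rw [pow_mul]
            norm_num
          rw [Finset.sum_congr rfl fun y _ => h4 y, Finset.sum_const, Finset.card_univ,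
            Fintype.card_prod, Fintype.card_prod, Fintype.card_fin, Fintype.card_option,
            Fintype.card_fin, nsmul_eq_mul]
          push_cast
          ring
        rw [Finset.sum_congr rfl fun q _ => h3 q, ← Finset.mul_sum]
        congr 1
        rw [Finset.univ_eq_attach]
        exact Finset.sum_attach (T m) (fun q => (4 / 25 : ℝ) ^ q.2)
      rw [h2]
      have h5 := hT2 m
      rw [le_div_iff₀ (by positivity)] at h5
      linarith
    refine (ENNReal.tsum_le_tsum h1).trans ?_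
    have hs : Summable δ :=
      (summable_geometric_of_lt_one (by norm_num) (by norm_num)).mul_left _
    rw [← ENNReal.ofReal_tsum_of_nonneg (fun _ => by positivity) hs, hδ, tsum_mul_left,
      tsum_geometric_of_lt_one (by norm_num) (by norm_num)]
    exact ENNReal.ofReal_le_ofReal (by norm_num)
  have hw : ∑' i, ENNReal.ofReal ((2 / 5 : ℝ) ^ n i) ≤ ENNReal.ofReal (1 / 10) := by
    rw [ENNReal.summable.tsum_sum ENNReal.summable]
    refine (add_le_add hw1 hw2).trans ?_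
    rw [← ENNReal.ofReal_add (by norm_num) (by norm_num)]
    exact ENNReal.ofReal_le_ofReal (by norm_num)
  obtain ⟨deg, h1, h2, h3⟩ := of_family r n hr (1 / 10) hw (by norm_num)
  refine ⟨Set.range r, deg, h1, h2, h3, fun g => ⟨enc g + 4, Sum.inl g, rfl⟩, ?_⟩
  intro k hk
  obtain ⟨m, rfl⟩ : ∃ m, k = m + 1 := ⟨k - 1, by omega⟩
  refine ⟨j₀ m, fun H hH1 hH2 hH3 => ?_⟩
  obtain ⟨q, hq, hsep⟩ := hT3 m H hH1 hH2 hH3
  have hlen := (hT1 m q hq).1
  have hget : ∀ a ∈ q.1, ∃ i : Fin (m + 1), lget m ⟨q, hq⟩ i = a := by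
    intro a ha
    obtain ⟨i, hi⟩ := List.get_of_mem ha
    exact ⟨i.cast hlen, hi⟩
  refine ⟨q.1, hlen, ?_, ?_, hsep⟩
  · intro a ha b hb
    obtain ⟨i, rfl⟩ := hget a ha
    obtain ⟨j, rfl⟩ := hget b hb
    exact ⟨Sum.inr ⟨m, ⟨q, hq⟩, i, j, none⟩, rfl⟩
  · intro a ha b hb x hx
    obtain ⟨i, rfl⟩ := hget a ha
    obtain ⟨j, rfl⟩ := hget b hb
    rw [S3, Finset.mem_image] at hx
    obtain ⟨x, _, rfl⟩ := hx
    exact ⟨Sum.inr ⟨m, ⟨q, hq⟩, i, j, some x⟩, rfl⟩

end Pool.Agent.W351.GS
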