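import Pool.Agent.W351.GS1

set_option autoImplicit false

namespace Pool.Agent.W351.GS

open Subgroup MonoidAlgebra Pointwise

variable {G : Type*} [Group G]

/-- span of the differences `s - 1` for generators `s` -/
noncomputable def W (S : Finset G) : Submodule (ZMod 2) (MonoidAlgebra (ZMod 2) G) :=
  Submodule.span (ZMod 2) ((fun s : G => MonoidAlgebra.of (ZMod 2) G s - 1) '' (S : Set G))

theorem W_le_M (S : Finset G) : W S ≤ M G := by
  rw [W, Submodule.span_le]
  rintro _ ⟨s, _, rfl⟩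
  exact of_sub_one_mem_M s

theorem M_le_W (S : Finset G) (hS : closure (S : Set G) = ⊤) : M G ≤ W S ⊔ M G ^ 2 := by
  rw [M, Submodule.span_le]
  rintro _ ⟨g, rfl⟩
  show of (ZMod 2) G g - 1 ∈ W S ⊔ M G ^ 2
  have hg : g ∈ closure (S : Set G) := by rw [hS]; trivial
  have hM2 : ∀ a b : G, (of (ZMod 2) G a - 1) * (of (ZMod 2) G b - 1) ∈ M G ^ 2 := by
    intro a b
    rw [pow_two]
    exact Submodule.mul_mem_mul (of_sub_one_mem_M a) (of_sub_one_mem_M b)
  induction hg using Subgroup.closure_induction with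
  | mem x hx => exact Submodule.mem_sup_left (Submodule.subset_span ⟨x, hx, rfl⟩)
  | one => rw [map_one, sub_self]; exact Submodule.zero_mem _
  | mul x y _ _ hx hy =>
    have : of (ZMod 2) G (x * y) - 1 = (of (ZMod 2) G x - 1) + (of (ZMod 2) G y - 1) +
        (of (ZMod 2) G x - 1) * (of (ZMod 2) G y - 1) := by
      rw [map_mul]; noncomm_ring
    rw [this]
    exact Submodule.add_mem _ (Submodule.add_mem _ hx hy) (Submodule.mem_sup_right (hM2 x y))
  | inv x _ hx =>
    have h1 : of (ZMod 2) G x⁻¹ * of (ZMod 2) G x = 1 := by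
      rw [← map_mul, inv_mul_cancel, map_one]
    have : of (ZMod 2) G x⁻¹ - 1 = - (of (ZMod 2) G x - 1) -
        (of (ZMod 2) G x⁻¹ - 1) * (of (ZMod 2) G x - 1) := by
      rw [sub_mul, mul_sub, h1]; noncomm_ring
    rw [this]
    exact Submodule.sub_mem _ (Submodule.neg_mem _ hx) (Submodule.mem_sup_right (hM2 _ _))

theorem top_le_one_sup : (⊤ : Submodule (ZMod 2) (MonoidAlgebra (ZMod 2) G)) ≤ 1 ⊔ M G := by
  rw [top_eq, Submodule.span_le]
  rintro _ ⟨g, rfl⟩
  show of (ZMod 2) G g ∈ 1 ⊔ M G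
  have : of (ZMod 2) G g = 1 + (of (ZMod 2) G g - 1) := by abel
  rw [this]
  exact Submodule.add_mem _ (Submodule.mem_sup_left (Submodule.one_le.1 le_rfl))
    (Submodule.mem_sup_right (of_sub_one_mem_M g))

theorem M_pow_anti {m n : ℕ} (hm : 1 ≤ m) (h : m ≤ n) : M G ^ n ≤ M G ^ m := by
  obtain ⟨m, rfl⟩ := Nat.exists_eq_add_of_le' hm
  obtain ⟨n, rfl⟩ := Nat.exists_eq_add_of_le' (hm.trans h)
  rw [← P_succ_eq, ← P_succ_eq]
  exact P_anti h

theorem M_pow_le (S : Finset G) (hS : closure (S : Set G) = ⊤) (x : ℕ) :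
    M G ^ x ≤ W S ^ x ⊔ M G ^ (x + 1) := by
  induction x with
  | zero => rw [pow_zero, pow_zero]; exact le_sup_left
  | succ x ih =>
    have hWM : ∀ y, W S ^ y ≤ M G ^ y := fun y => pow_le_pow_left' (W_le_M S) y
    calc M G ^ (x + 1) = M G ^ x * M G := pow_succ _ _
      _ ≤ (W S ^ x ⊔ M G ^ (x + 1)) * (W S ⊔ M G ^ 2) := mul_le_mul' ih (M_le_W S hS)
      _ = W S ^ x * W S ⊔ M G ^ (x + 1) * W S ⊔ (W S ^ x * M G ^ 2 ⊔ M G ^ (x + 1) * M G ^ 2) := by
        rw [Submodule.mul_sup, Submodule.sup_mul, Submodule.sup_mul]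
      _ ≤ _ := by
        refine sup_le (sup_le ?_ ?_) (sup_le ?_ ?_)
        · rw [← pow_succ]; exact le_sup_left
        · refine le_sup_of_le_right ?_
          rw [pow_succ _ (x + 1)]
          exact mul_le_mul' le_rfl (W_le_M S)
        · refine le_sup_of_le_right ?_
          rw [add_assoc x 1 1, pow_add]
          exact mul_le_mul' (hWM x) le_rfl
        · refine le_sup_of_le_right ?_
          rw [← pow_add]
          exact M_pow_anti (by omega) (by omega)

theorem P_le (S : Finset G) (hS : closure (S : Set G) = ⊤) (x : ℕ) :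
    P G x ≤ W S ^ x ⊔ P G (x + 1) := by
  calc P G x = M G ^ x * ⊤ := rfl
    _ ≤ (W S ^ x ⊔ M G ^ (x + 1)) * (1 ⊔ M G) :=
        mul_le_mul' (M_pow_le S hS x) top_le_one_sup
    _ = W S ^ x * 1 ⊔ M G ^ (x + 1) * 1 ⊔ (W S ^ x * M G ⊔ M G ^ (x + 1) * M G) := by
        rw [Submodule.mul_sup, Submodule.sup_mul, Submodule.sup_mul]
    _ ≤ _ := by
        rw [mul_one, mul_one]
        refine sup_le (sup_le le_sup_left ?_) (sup_le ?_ ?_)
        · rw [P_succ_eq]; exact le_sup_right
        · rw [P_succ_eq, pow_succ]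
          exact le_sup_of_le_right (mul_le_mul' (pow_le_pow_left' (W_le_M S) x) le_rfl)
        · rw [P_succ_eq, ← pow_succ]
          exact le_sup_of_le_right (M_pow_anti (by omega) (by omega))

/-- the finite set of products of at most `x` factors `s - 1` -/
noncomputable def U [DecidableEq (MonoidAlgebra (ZMod 2) G)] (S : Finset G) :
    Finset (MonoidAlgebra (ZMod 2) G) :=
  insert 1 (S.image fun s : G => MonoidAlgebra.of (ZMod 2) G s - 1)

theorem sup_P_eq_top [DecidableEq (MonoidAlgebra (ZMod 2) G)] (S : Finset G)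
    (hS : closure (S : Set G) = ⊤) (x : ℕ) :
    Submodule.span (ZMod 2) ((U S : Finset _) : Set (MonoidAlgebra (ZMod 2) G)) ^ x ⊔ P G x = ⊤ := by
  induction x with
  | zero => rw [P_zero, sup_top_eq]
  | succ x ih =>
    set V := Submodule.span (ZMod 2) ((U S : Finset _) : Set (MonoidAlgebra (ZMod 2) G)) with hV
    have h1 : (1 : Submodule (ZMod 2) (MonoidAlgebra (ZMod 2) G)) ≤ V := by
      rw [Submodule.one_le, hV]
      exact Submodule.subset_span (by simp [U])
    have hW : W S ≤ V := by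
      rw [W, Submodule.span_le, hV]
      rintro _ ⟨s, hs, rfl⟩
      refine Submodule.subset_span ?_
      simp only [U, Finset.coe_insert, Finset.coe_image]
      exact Or.inr ⟨s, hs, rfl⟩
    rw [eq_top_iff, ← ih]
    have h2 : V ^ x ≤ V ^ (x + 1) := by
      rw [pow_succ]
      calc V ^ x = V ^ x * 1 := (mul_one _).symm
        _ ≤ _ := mul_le_mul' le_rfl h1
    refine sup_le (le_sup_of_le_left h2) ((P_le S hS x).trans (sup_le ?_ le_sup_right))
    exact le_sup_of_le_left ((pow_le_pow_left' hW x).trans h2)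

theorem quot_P (S : Finset G) (hS : closure (S : Set G) = ⊤) (x : ℕ) :
    Module.Finite (ZMod 2) (MonoidAlgebra (ZMod 2) G ⧸ P G x) ∧
    Module.finrank (ZMod 2) (MonoidAlgebra (ZMod 2) G ⧸ P G x) ≤ (S.card + 1) ^ x := by
  classical
  set V := Submodule.span (ZMod 2) ((U S ^ x : Finset _) : Set (MonoidAlgebra (ZMod 2) G)) with hV
  have hV' : V = Submodule.span (ZMod 2) ((U S : Finset _) : Set (MonoidAlgebra (ZMod 2) G)) ^ x := by
    rw [Submodule.span_pow, hV, Finset.coe_pow]
  have hfin : Module.Finite (ZMod 2) V := by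
    rw [hV]
    exact Module.Finite.span_finset _ _
  have hrank : Module.finrank (ZMod 2) V ≤ (S.card + 1) ^ x := by
    calc Module.finrank (ZMod 2) V ≤ (U S ^ x).card := finrank_span_finset_le_card _
      _ ≤ (U S).card ^ x := Finset.card_pow_le
      _ ≤ _ := Nat.pow_le_pow_left ((Finset.card_insert_le _ _).trans
          (Nat.add_le_add_right Finset.card_image_le 1)) x
  have hsurj : Function.Surjective ((P G x).mkQ ∘ₗ V.subtype) := by
    rw [← LinearMap.range_eq_top, LinearMap.range_comp, Submodule.range_subtype,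
      Submodule.map_mkQ_eq_top, hV', sup_comm]
    exact sup_P_eq_top S hS x
  exact ⟨Module.Finite.of_surjective _ hsurj,
    (LinearMap.finrank_le_finrank_of_surjective hsurj).trans hrank⟩

/-- the group modulo a dimension subgroup injects into the quotient of the group algebra -/
noncomputable def toQuot (G : Type*) [Group G] (x : ℕ) :
    G ⧸ D G x → MonoidAlgebra (ZMod 2) G ⧸ P G x :=
  Quotient.lift (fun g : G => (P G x).mkQ (of (ZMod 2) G g)) (by
    intro a b hab
    have hab' : a⁻¹ * b ∈ D G x := QuotientGroup.leftRel_apply.1 hab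
    rw [← sub_eq_zero, ← map_sub, Submodule.mkQ_apply, Submodule.Quotient.mk_eq_zero]
    rw [mem_D] at hab'
    have : of (ZMod 2) G a - of (ZMod 2) G b =
        - (of (ZMod 2) G a * (of (ZMod 2) G (a⁻¹ * b) - 1)) := by
      rw [mul_sub, ← map_mul, mul_inv_cancel_left]; noncomm_ring
    rw [this]
    exact Submodule.neg_mem _ (mul_mem_P_left _ hab'))

theorem toQuot_injective (x : ℕ) : Function.Injective (toQuot G x) := by
  intro a b
  induction a using Quotient.inductionOn with | _ a =>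
  induction b using Quotient.inductionOn with | _ b =>
  intro h
  have h' : (P G x).mkQ (of (ZMod 2) G a) = (P G x).mkQ (of (ZMod 2) G b) := h
  rw [← sub_eq_zero, ← map_sub, Submodule.mkQ_apply, Submodule.Quotient.mk_eq_zero] at h'
  apply Quotient.sound
  show QuotientGroup.leftRel _ a b
  rw [QuotientGroup.leftRel_apply, mem_D]
  have : of (ZMod 2) G (a⁻¹ * b) - 1 =
      - (of (ZMod 2) G a⁻¹ * (of (ZMod 2) G a - of (ZMod 2) G b)) := by
    rw [mul_sub, ← map_mul, ← map_mul, inv_mul_cancel, map_one]; noncomm_ring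
  rw [this]
  exact Submodule.neg_mem _ (mul_mem_P_left _ h')

theorem index_D (S : Finset G) (hS : closure (S : Set G) = ⊤) (x : ℕ) :
    (D G x).index ≠ 0 ∧ (D G x).index ≤ 2 ^ (S.card + 1) ^ x := by
  obtain ⟨hf, hr⟩ := quot_P S hS x
  have hfin : Finite (MonoidAlgebra (ZMod 2) G ⧸ P G x) := Module.finite_of_finite (ZMod 2)
  have hfin2 : Finite (G ⧸ D G x) := Finite.of_injective _ (toQuot_injective x)
  refine ⟨?_, ?_⟩
  · rw [Subgroup.index]
    exact Nat.card_pos.ne'
  · rw [Subgroup.index]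
    calc Nat.card (G ⧸ D G x) ≤ Nat.card (MonoidAlgebra (ZMod 2) G ⧸ P G x) :=
          Nat.card_le_card_of_injective _ (toQuot_injective x)
      _ = 2 ^ Module.finrank (ZMod 2) (MonoidAlgebra (ZMod 2) G ⧸ P G x) := by
          rw [Module.natCard_eq_pow_finrank (K := ZMod 2), Nat.card_eq_fintype_card, ZMod.card]
      _ ≤ _ := Nat.pow_le_pow_right (by norm_num) hr

end Pool.Agent.W351.GS
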