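import Pool.Agent.W351.GS2

set_option autoImplicit false

namespace Pool.Agent.W351.GS

open Subgroup MonoidAlgebra

variable {G : Type*} [Group G]

/-- in a group whose quotient by the normal subgroup `N` is a finite 2-group, every proper
subgroup containing `N` has index two in a larger subgroup -/
theorem exists_double (N : Subgroup G) [N.Normal] (hN : N.index ≠ 0) (h2 : IsPGroup 2 (G ⧸ N))
    (K : Subgroup G) (hNK : N ≤ K) (hK : K ≠ ⊤) : ∃ L, K ≤ L ∧ K.relIndex L = 2 := by
  have : N.FiniteIndex := ⟨hN⟩
  have : Fact (Nat.Prime 2) := ⟨Nat.prime_two⟩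
  obtain ⟨a, ha⟩ := IsPGroup.iff_card.1 h2
  set π := QuotientGroup.mk' N with hπ
  have hsurj : Function.Surjective π := QuotientGroup.mk'_surjective N
  set K' := K.map π with hK'
  obtain ⟨b, hb⟩ := IsPGroup.iff_card.1 (h2.to_subgroup K')
  have hker : π.ker ≤ K := by rw [hπ, QuotientGroup.ker_mk']; exact hNK
  have hcomap : K'.comap π = K := comap_map_eq_self hker
  have hK'top : K' ≠ ⊤ := by
    intro h
    apply hK
    rw [← hcomap, h, comap_top]
  have hlt : b < a := by
    have h1 := card_mul_index K'
    have h3 : K'.index ≠ 1 := fun h => hK'top (index_eq_one.1 h)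
    have h4 : K'.index ≠ 0 := by
      intro h0
      rw [h0, mul_zero, ha] at h1
      exact (pow_ne_zero a two_ne_zero) h1.symm
    rw [hb, ha] at h1
    by_contra hle
    push Not at hle
    have h5 : 2 ^ a ≤ 2 ^ b := Nat.pow_le_pow_right (by norm_num) hle
    have h6 : 2 ≤ K'.index := by omega
    have h7 : 0 < 2 ^ b := by positivity
    nlinarith
  obtain ⟨L', hL', hKL'⟩ := Sylow.exists_subgroup_card_pow_succ (p := 2) (n := b)
    (by rw [ha]; exact pow_dvd_pow 2 hlt) hb
  refine ⟨L'.comap π, ?_, ?_⟩
  · rw [← hcomap]; exact comap_mono hKL'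
  · rw [← hcomap, relIndex_comap, map_comap_eq_self_of_surjective hsurj]
    have h1 := card_mul_index (K'.subgroupOf L')
    rw [hL', Nat.card_congr (subgroupOfEquivOfLe hKL').toEquiv, hb, pow_succ] at h1
    have h7 : 0 < 2 ^ b := by positivity
    exact Nat.eq_of_mul_eq_mul_left h7 h1

/-- same with the normal core -/
theorem exists_double' (h2 : ∀ K : Subgroup G, K.index ≠ 0 → IsPGroup 2 (G ⧸ K.normalCore))
    (K : Subgroup G) (hKi : K.index ≠ 0) (hK : K ≠ ⊤) : ∃ L, K ≤ L ∧ K.relIndex L = 2 := by
  have : K.FiniteIndex := ⟨hKi⟩
  exact exists_double K.normalCore (finiteIndex_normalCore K).index_ne_zero (h2 K hKi) K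
    (normalCore_le K) hK

/-- property of having doubling overgroups -/
def Dbl (K : Subgroup G) : Prop :=
  ∀ L : Subgroup G, K ≤ L → L ≠ ⊤ → ∃ L', L ≤ L' ∧ L.relIndex L' = 2

theorem index_pow {K : Subgroup G} (hE : Dbl K) (hK : K.index ≠ 0) : ∃ b, K.index = 2 ^ b := by
  have key : ∀ n : ℕ, ∀ L : Subgroup G, K ≤ L → L.index = n → n ≠ 0 → ∃ b, L.index = 2 ^ b := by
    intro n
    induction n using Nat.strong_induction_on with
    | _ n ih =>
      intro L hKL hLn hn
      by_cases hLtop : L = ⊤
      · exact ⟨0, by rw [hLtop, index_top, pow_zero]⟩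
      · obtain ⟨L', hLL', hrel⟩ := hE L hKL hLtop
        have h3 := relIndex_mul_index hLL'
        rw [hrel, hLn] at h3
        obtain ⟨b, hb⟩ := ih L'.index (by omega) L' (hKL.trans hLL') rfl (by omega)
        exact ⟨b + 1, by rw [hLn, ← h3, hb, pow_succ, mul_comm]⟩
  exact key _ K le_rfl rfl hK

/-- climbing to a subgroup of prescribed index -/
theorem exists_index {K : Subgroup G} (hE : Dbl K) (hK : K.index ≠ 0)
    (a : ℕ) (ha : 2 ^ a ≤ K.index) : ∃ L, K ≤ L ∧ L.index = 2 ^ a := by
  have key : ∀ b : ℕ, ∀ L : Subgroup G, K ≤ L → L.index = 2 ^ b → a ≤ b →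
      ∃ L', K ≤ L' ∧ L'.index = 2 ^ a := by
    intro b
    induction b with
    | zero =>
      intro L hKL hLn hn
      obtain rfl : a = 0 := by omega
      exact ⟨L, hKL, hLn⟩
    | succ b ih =>
      intro L hKL hLn hn
      by_cases h : a = b + 1
      · exact ⟨L, hKL, by rw [hLn, h]⟩
      · have hLtop : L ≠ ⊤ := by
          rintro rfl
          rw [index_top, pow_succ] at hLn
          omega
        obtain ⟨L', hLL', hrel⟩ := hE L hKL hLtop
        have h3 := relIndex_mul_index hLL'
        rw [hrel, hLn, pow_succ, mul_comm 2] at h3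
        exact ih L' (hKL.trans hLL') (by omega) (by omega)
  obtain ⟨b, hb⟩ := index_pow hE hK
  refine key b K le_rfl hb ?_
  rw [hb] at ha
  exact (Nat.pow_le_pow_iff_right (by norm_num)).1 ha

/-! ### Small subgroups contain deep dimension subgroups -/

/-- left translation action on functions -/
def tr (G : Type*) [Group G] : G →* Module.End (ZMod 2) (G → ZMod 2) where
  toFun h := { toFun := fun f g => f (h⁻¹ * g), map_add' := fun _ _ => rfl, map_smul' := fun _ _ => rfl }
  map_one' := by ext f g; simp
  map_mul' a b := by
    ext f g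
    simp [mul_assoc]

/-- action of the group algebra on functions -/
noncomputable def act (G : Type*) [Group G] :
    MonoidAlgebra (ZMod 2) G →ₐ[ZMod 2] Module.End (ZMod 2) (G → ZMod 2) :=
  MonoidAlgebra.lift (ZMod 2) (Module.End (ZMod 2) (G → ZMod 2)) G (tr G)

theorem act_of (h : G) (f : G → ZMod 2) (g : G) :
    act G (of (ZMod 2) G h) f g = f (h⁻¹ * g) := by
  rw [act, MonoidAlgebra.lift_of]; rfl

/-- right translation -/
def rt (u : G) (f : G → ZMod 2) : G → ZMod 2 := fun g => f (g * u)

theorem act_rt (a : MonoidAlgebra (ZMod 2) G) (u : G) (f : G → ZMod 2) :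
    act G a (rt u f) = rt u (act G a f) := by
  induction a using MonoidAlgebra.induction_on with
  | of h =>
    funext g
    rw [act_of, rt, rt, act_of, mul_assoc]
  | add a b ha hb =>
    rw [map_add, LinearMap.add_apply, ha, hb]; rfl
  | smul r a ha =>
    rw [map_smul, LinearMap.smul_apply, ha]; rfl

/-- functions invariant under right translation by `K` -/
def InvR (K : Subgroup G) (f : G → ZMod 2) : Prop := ∀ k ∈ K, rt k f = f

theorem InvR.act {K : Subgroup G} {f : G → ZMod 2} (hf : InvR K f)
    (a : MonoidAlgebra (ZMod 2) G) : InvR K (act G a f) := by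
  intro k hk
  rw [← act_rt, hf k hk]

theorem P_add_le (m n : ℕ) : P G (m + n) ≤ P G m * P G n := by
  calc P G (m + n) = M G ^ m * (M G ^ n * ⊤) := by rw [P, pow_add, mul_assoc]
    _ ≤ (M G ^ m * ⊤) * (M G ^ n * ⊤) := by
      refine mul_le_mul' ?_ le_rfl
      calc M G ^ m = M G ^ m * 1 := (mul_one _).symm
        _ ≤ _ := mul_le_mul' le_rfl le_top

theorem kill {K : Subgroup G} (hE : Dbl K) (hK : K.index ≠ 0) :
    ∀ a ∈ P G K.index, ∀ f, InvR K f → act G a f = 0 := by
  have key : ∀ n : ℕ, ∀ L : Subgroup G, K ≤ L → L.index = n → n ≠ 0 →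
      ∀ a ∈ P G L.index, ∀ f, InvR L f → act G a f = 0 := by
    intro n
    induction n using Nat.strong_induction_on with
    | _ n ih =>
      intro L hKL hLn hn a ha f hf
      by_cases hLtop : L = ⊤
      · subst hLtop
        rw [index_top, P_one] at ha
        rw [M] at ha
        induction ha using Submodule.span_induction with
        | mem x hx =>
          obtain ⟨g, rfl⟩ := hx
          funext y
          show act G (of (ZMod 2) G g - 1) f y = 0
          rw [map_sub, map_one, LinearMap.sub_apply, Pi.sub_apply, act_of, sub_eq_zero]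
          have h1 := congrFun (hf (y⁻¹ * (g⁻¹ * y)) trivial) y
          rw [rt, mul_inv_cancel_left] at h1
          exact h1
        | zero => rw [map_zero, LinearMap.zero_apply]
        | add x y _ _ hx hy => rw [map_add, LinearMap.add_apply, hx, hy, add_zero]
        | smul r x _ hx => rw [map_smul, LinearMap.smul_apply, hx, smul_zero]
      · obtain ⟨L', hLL', hrel⟩ := hE L hKL hLtop
        have h3 := relIndex_mul_index hLL'
        rw [hrel, hLn] at h3
        have hL'n : L'.index ≠ 0 := by omega
        have IH := ih L'.index (by omega) L' (hKL.trans hLL') rfl hL'n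
        have hind : (L.subgroupOf L').index = 2 := hrel
        have hmem : ∀ x ∈ L', ∀ y ∈ L', (x * y ∈ L ↔ (x ∈ L ↔ y ∈ L)) := by
          intro x hx y hy
          exact mul_mem_iff_of_index_two (H := L.subgroupOf L') hind (a := ⟨x, hx⟩) (b := ⟨y, hy⟩)
        obtain ⟨u, huL', huL⟩ : ∃ u ∈ L', u ∉ L := by
          by_contra hcon
          push Not at hcon
          have : L.relIndex L' = 1 := relIndex_eq_one.2 hcon
          omega
        -- the trace map
        have hT : ∀ f, InvR L f → InvR L' (rt u f + f) := by
          intro f hf l hl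
          by_cases hlL : l ∈ L
          · have h5 : u⁻¹ * (l * u) ∈ L := by
              rw [hmem _ (inv_mem huL') _ (mul_mem hl huL'), hmem _ hl _ huL']
              simp [huL, hlL]
            have h6 := hf _ h5
            have h7 := hf _ hlL
            funext g
            show f (g * l * u) + f (g * l) = f (g * u) + f g
            have h8 := congrFun h6 (g * u)
            have h9 := congrFun h7 g
            simp only [rt] at h8 h9
            rw [h9, ← h8]
            congr 2
            group
          · have h5 : u⁻¹ * l ∈ L := by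
              rw [hmem _ (inv_mem huL') _ hl]
              simp [huL, hlL]
            have h6 : l * u ∈ L := by
              rw [hmem _ hl _ huL']
              simp [huL, hlL]
            funext g
            show f (g * l * u) + f (g * l) = f (g * u) + f g
            have h8 := congrFun (hf _ h5) (g * u)
            have h9 := congrFun (hf _ h6) g
            simp only [rt] at h8 h9
            rw [mul_assoc g l u, h9, add_comm]
            congr 1
            rw [← h8]
            congr 1
            group
        have hsub : P G L.index ≤ P G L'.index * P G L'.index := by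
          rw [hLn, ← h3, two_mul]
          exact P_add_le _ _
        have ha' := hsub ha
        clear ha
        induction ha' using Submodule.mul_induction_on' with
        | mem_mul_mem x hx y hy =>
          rw [map_mul, Module.End.mul_apply]
          apply IH x hx
          have h10 : act G y (rt u f + f) = 0 := IH y hy _ (hT f hf)
          rw [map_add, act_rt] at h10
          have h11 : rt u (act G y f) = act G y f := by
            have h12 : rt u (act G y f) = - act G y f := eq_neg_of_add_eq_zero_left h10
            rw [h12]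
            funext g
            exact ZMod.neg_eq_self_mod_two _
          intro l hl
          by_cases hlL : l ∈ L
          · exact hf.act y l hlL
          · have h5 : u⁻¹ * l ∈ L := by
              rw [hmem _ (inv_mem huL') _ hl]
              simp [huL, hlL]
            funext g
            have h8 := congrFun (hf.act y _ h5) (g * u)
            have h9 := congrFun h11 g
            simp only [rt] at h8 h9 ⊢
            rw [← h9, ← h8]
            congr 1
            group
        | add x _ y _ hx hy =>
          rw [map_add, LinearMap.add_apply, hx, hy, add_zero]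
  exact key _ K le_rfl rfl hK

/-- deep dimension subgroups lie in subgroups of small index -/
theorem D_le {K : Subgroup G} (hE : Dbl K) (hK : K.index ≠ 0) {m : ℕ} (hm : K.index ≤ m) :
    D G m ≤ K := by
  classical
  intro s hs
  have hs' := D_anti hm hs
  set f : G → ZMod 2 := fun g => if g ∈ K then 1 else 0 with hf
  have hinv : InvR K f := by
    intro k hk
    funext g
    simp only [rt, hf]
    rw [K.mul_mem_cancel_right hk]
  have h1 := congrFun (kill hE hK _ (mem_D.1 hs') f hinv) s
  rw [map_sub, map_one, LinearMap.sub_apply, Pi.sub_apply, act_of, inv_mul_cancel] at h1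
  have h2 : f 1 = 1 := by simp [hf, K.one_mem]
  rw [h2] at h1
  by_contra hcon
  have h3 : f s = 0 := by simp [hf, hcon]
  rw [Module.End.one_apply, h3] at h1
  simp at h1

end Pool.Agent.W351.GS
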