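import Pool.Agent.W351.GS3

set_option autoImplicit false

namespace Pool.Agent.W351.GS

open Subgroup

variable {G : Type*} [Group G]

/-- the number of generators over a subgroup is at most the logarithm of the index -/
theorem exists_gens (m : ℕ) : ∀ N Y : Subgroup G, N ≤ Y → N.relIndex Y ≠ 0 →
    N.relIndex Y ≤ 2 ^ m → ∃ T : Finset G, T.card ≤ m ∧ closure (T : Set G) ⊔ N = Y := by
  classical
  induction m with
  | zero =>
    intro N Y hNY h0 h1
    have h2 : N.relIndex Y = 1 := by
      rw [pow_zero] at h1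
      omega
    refine ⟨∅, by simp, ?_⟩
    rw [Finset.coe_empty, Subgroup.closure_empty, bot_sup_eq]
    exact le_antisymm hNY (relIndex_eq_one.1 h2)
  | succ m ih =>
    intro N Y hNY h0 h1
    by_cases h : N = Y
    · refine ⟨∅, by simp, ?_⟩
      rw [Finset.coe_empty, Subgroup.closure_empty, bot_sup_eq, h]
    · obtain ⟨y, hyY, hyN⟩ : ∃ y ∈ Y, y ∉ N := by
        by_contra hcon
        push Not at hcon
        exact h (le_antisymm hNY hcon)
      set N' := closure ({y} : Set G) ⊔ N with hN'
      have hNN' : N ≤ N' := le_sup_right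
      have hyN' : y ∈ N' := (le_sup_left : _ ≤ N') (subset_closure rfl)
      have hN'Y : N' ≤ Y := sup_le ((closure_le _).2 (by simpa using hyY)) hNY
      have h3 := relIndex_mul_relIndex N N' Y hNN' hN'Y
      have h4 : N.relIndex N' ≠ 1 := fun h5 => hyN (relIndex_eq_one.1 h5 hyN')
      have h5 : N.relIndex N' ≠ 0 := fun h6 => h0 (by rw [← h3, h6, zero_mul])
      have h6 : N'.relIndex Y ≠ 0 := fun h6 => h0 (by rw [← h3, h6, mul_zero])
      have h7 : N'.relIndex Y ≤ 2 ^ m := by
        have h8 : 2 ≤ N.relIndex N' := by omega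
        have h9 : 2 * N'.relIndex Y ≤ 2 ^ (m + 1) :=
          (Nat.mul_le_mul_right _ h8).trans (h3.le.trans h1)
        rw [pow_succ] at h9
        omega
      obtain ⟨T, hT, hTY⟩ := ih N' Y hN'Y h6 h7
      refine ⟨insert y T, (Finset.card_insert_le _ _).trans (by omega), ?_⟩
      rw [← hTY, Finset.coe_insert, ← Set.singleton_union, Subgroup.closure_union, hN', ← sup_assoc,
        sup_comm (closure {y})]

/-- counting subgroups -/
theorem count {N : Subgroup G} (g : ℕ → ℕ)
    (hE : ∀ K : Subgroup G, N ≤ K → K.index ≠ 0 → K ≠ ⊤ → ∃ L, K ≤ L ∧ K.relIndex L = 2)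
    (hg : ∀ j (K : Subgroup G), N ≤ K → K.index = 2 ^ j →
      ∃ T : Finset G, T.card ≤ g j ∧ closure (T : Set G) ⊔ N = K) (j : ℕ) :
    {K : Subgroup G | N ≤ K ∧ K.index = 2 ^ j}.Finite ∧
    {K : Subgroup G | N ≤ K ∧ K.index = 2 ^ j}.ncard ≤ 2 ^ ∑ i ∈ Finset.range j, g i := by
  classical
  induction j with
  | zero =>
    have h : {K : Subgroup G | N ≤ K ∧ K.index = 2 ^ 0} ⊆ {⊤} := by
      rintro K ⟨_, hK⟩
      rw [pow_zero, index_eq_one] at hK
      exact hK
    refine ⟨(Set.finite_singleton _).subset h, ?_⟩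
    calc _ ≤ Set.ncard ({⊤} : Set (Subgroup G)) := Set.ncard_le_ncard h
      _ = _ := by simp
  | succ j ih =>
    obtain ⟨hfin, hcard⟩ := ih
    -- the subgroups of index two in `L`
    have hC : ∀ L : Subgroup G, N ≤ L → L.index = 2 ^ j →
        {K : Subgroup G | N ≤ K ∧ K ≤ L ∧ K.relIndex L = 2}.Finite ∧
        {K : Subgroup G | N ≤ K ∧ K ≤ L ∧ K.relIndex L = 2}.ncard ≤ 2 ^ g j := by
      intro L hNL hL
      obtain ⟨T, hT, hTL⟩ := hg j L hNL hL
      have hmaps : ∀ K ∈ {K : Subgroup G | N ≤ K ∧ K ≤ L ∧ K.relIndex L = 2},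
          T.filter (· ∈ K) ∈ ((T.powerset : Finset (Finset G)) : Set (Finset G)) := by
        intro K _
        rw [Finset.mem_coe, Finset.mem_powerset]
        exact Finset.filter_subset _ _
      have hinj : Set.InjOn (fun K : Subgroup G => T.filter (· ∈ K))
          {K : Subgroup G | N ≤ K ∧ K ≤ L ∧ K.relIndex L = 2} := by
        rintro K ⟨hNK, hKL, hK2⟩ K' ⟨hNK', hKL', hK2'⟩ hKK'
        have hm : ∀ x ∈ L, ∀ y ∈ L, (x * y ∈ K ↔ (x ∈ K ↔ y ∈ K)) := by
          intro x hx y hy
          exact mul_mem_iff_of_index_two (H := K.subgroupOf L) hK2 (a := ⟨x, hx⟩) (b := ⟨y, hy⟩)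
        have hm' : ∀ x ∈ L, ∀ y ∈ L, (x * y ∈ K' ↔ (x ∈ K' ↔ y ∈ K')) := by
          intro x hx y hy
          exact mul_mem_iff_of_index_two (H := K'.subgroupOf L) hK2' (a := ⟨x, hx⟩) (b := ⟨y, hy⟩)
        have hLc : L = closure ((T : Set G) ∪ (N : Set G)) := by
          rw [Subgroup.closure_union, Subgroup.closure_eq, hTL]
        have hall : ∀ x ∈ closure ((T : Set G) ∪ (N : Set G)), (x ∈ K ↔ x ∈ K') := by
          intro x hx
          induction hx using closure_induction with
          | mem x hx =>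
            rcases hx with hx | hx
            · have := Finset.ext_iff.1 hKK' x
              simp only [Finset.mem_filter] at this
              have hxT : x ∈ T := hx
              simpa [hxT] using this
            · exact ⟨fun _ => hNK' hx, fun _ => hNK hx⟩
          | one => simp [K.one_mem, K'.one_mem]
          | mul x y hx hy h1 h2 =>
            rw [← hLc] at hx hy
            rw [hm x hx y hy, hm' x hx y hy, h1, h2]
          | inv x _ h1 => rw [K.inv_mem_iff, K'.inv_mem_iff, h1]
        ext x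
        constructor
        · intro hx
          exact (hall x (hLc ▸ hKL hx)).1 hx
        · intro hx
          exact (hall x (hLc ▸ hKL' hx)).2 hx
      have hpf : ((T.powerset : Finset (Finset G)) : Set (Finset G)).Finite := Finset.finite_toSet _
      refine ⟨Set.Finite.of_injOn hmaps hinj hpf, ?_⟩
      calc _ ≤ ((T.powerset : Finset (Finset G)) : Set (Finset G)).ncard :=
            Set.ncard_le_ncard_of_injOn _ hmaps hinj hpf
        _ = 2 ^ T.card := by rw [Set.ncard_coe_finset, Finset.card_powerset]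
        _ ≤ _ := Nat.pow_le_pow_right (by norm_num) hT
    set B : Subgroup G → Finset (Subgroup G) := fun L =>
      if h : {K : Subgroup G | N ≤ K ∧ K ≤ L ∧ K.relIndex L = 2}.Finite then h.toFinset else ∅
      with hB
    have hsub : {K : Subgroup G | N ≤ K ∧ K.index = 2 ^ (j + 1)} ⊆
        ((hfin.toFinset.biUnion B : Finset (Subgroup G)) : Set (Subgroup G)) := by
      rintro K ⟨hNK, hK⟩
      have hKtop : K ≠ ⊤ := by
        rintro rfl
        rw [index_top, pow_succ] at hK
        omega
      obtain ⟨L, hKL, hKL2⟩ := hE K hNK (by rw [hK]; positivity) hKtop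
      have h3 := relIndex_mul_index hKL
      rw [hKL2, hK, pow_succ, mul_comm 2] at h3
      have hLi : L.index = 2 ^ j := by omega
      have hNL := hNK.trans hKL
      rw [Finset.mem_coe, Finset.mem_biUnion]
      refine ⟨L, by rw [Set.Finite.mem_toFinset]; exact ⟨hNL, hLi⟩, ?_⟩
      rw [hB]
      simp only
      rw [dif_pos (hC L hNL hLi).1, Set.Finite.mem_toFinset]
      exact ⟨hNK, hKL, hKL2⟩
    refine ⟨(Finset.finite_toSet _).subset hsub, ?_⟩
    calc _ ≤ ((hfin.toFinset.biUnion B : Finset (Subgroup G)) : Set (Subgroup G)).ncard :=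
          Set.ncard_le_ncard hsub (Finset.finite_toSet _)
      _ = (hfin.toFinset.biUnion B).card := Set.ncard_coe_finset _
      _ ≤ hfin.toFinset.card * 2 ^ g j := by
          refine Finset.card_biUnion_le_card_mul _ _ _ ?_
          intro L hL
          rw [Set.Finite.mem_toFinset] at hL
          obtain ⟨hf, hc⟩ := hC L hL.1 hL.2
          rw [hB]
          simp only
          rw [dif_pos hf, ← Set.ncard_eq_toFinset_card _ hf]
          exact hc
      _ ≤ 2 ^ (∑ i ∈ Finset.range j, g i) * 2 ^ g j := by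
          refine Nat.mul_le_mul_right _ ?_
          rw [← Set.ncard_eq_toFinset_card _ hfin]
          exact hcard
      _ = _ := by rw [← pow_add, Finset.sum_range_succ]

end Pool.Agent.W351.GS
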