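import Pool.Agent.W351.GS4

set_option autoImplicit false

namespace Pool.Agent.W351.GS

open Subgroup

variable {G : Type*} [Group G]

/-- inductive criterion for large orbits -/
def Good : List G → Subgroup G → Prop
  | [], _ => True
  | s :: l, K => ∃ K' : Subgroup G, K ≤ K' ∧ (∀ g, g⁻¹ * s * g ∈ K') ∧ (∀ g, g⁻¹ * s * g ∉ K) ∧
      Good l K'

/-- the list of the `2 ^ k` words attached to a list of length `k` -/
def Ws : List G → List G
  | [] => [1]
  | s :: l => Ws l ++ (Ws l).map (· * s)

theorem length_Ws (l : List G) : (Ws l).length = 2 ^ l.length := by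
  induction l with
  | nil => rfl
  | cons s l ih => rw [Ws, List.length_append, List.length_map, ih, List.length_cons, pow_succ]; ring

theorem Ws_subset {A : Subgroup G} (l : List G) (h : ∀ s ∈ l, s ∈ A) : ∀ w ∈ Ws l, w ∈ A := by
  induction l with
  | nil =>
    intro w hw
    rw [Ws, List.mem_singleton] at hw
    rw [hw]; exact A.one_mem
  | cons s l ih =>
    intro w hw
    have ih' := ih fun s hs => h s (List.mem_cons_of_mem _ hs)
    rw [Ws, List.mem_append] at hw
    rcases hw with hw | hw
    · exact ih' w hw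
    · rw [List.mem_map] at hw
      obtain ⟨v, hv, rfl⟩ := hw
      exact A.mul_mem (ih' v hv) (h s List.mem_cons_self)

/-- the words move every coset to pairwise different places -/
def Sep (l : List G) (K : Subgroup G) : Prop :=
  ∀ g : G, ((Ws l).map fun w => ((w * g : G) : G ⧸ K)).Nodup

theorem Good.sep (l : List G) : ∀ K : Subgroup G, Good l K → Sep l K := by
  induction l with
  | nil => intro K _ g; simp [Ws]
  | cons s l ih =>
    rintro K ⟨K', hKK', h1, h2, hg⟩ g
    have hS := ih K' hg
    -- coarsening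
    have hco : ∀ a b : G, ((a : G) : G ⧸ K) = (b : G ⧸ K) → (a : G ⧸ K') = (b : G ⧸ K') := by
      intro a b hab
      rw [QuotientGroup.eq] at hab ⊢
      exact hKK' hab
    have hinj : ∀ g : G, ∀ w ∈ Ws l, ∀ w' ∈ Ws l,
        ((w * g : G) : G ⧸ K') = ((w' * g : G) : G ⧸ K') → w = w' := fun g w hw w' hw' h =>
      List.inj_on_of_nodup_map (hS g) hw hw' h
    have hnd : (Ws l).Nodup := List.Nodup.of_map _ (hS g)
    rw [Ws, List.map_append, List.nodup_append]
    refine ⟨?_, ?_, ?_⟩
    · exact hnd.map_on fun w hw w' hw' h => hinj g w hw w' hw' (hco _ _ h)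
    · rw [List.map_map]
      refine hnd.map_on fun w hw w' hw' h => hinj (s * g) w hw w' hw' (hco _ _ ?_)
      simpa only [Function.comp, mul_assoc] using h
    · intro a ha b hb hab
      subst hab
      rw [List.mem_map] at ha hb
      obtain ⟨w, hw, rfl⟩ := ha
      obtain ⟨v, hv, hvw⟩ := hb
      rw [List.mem_map] at hv
      obtain ⟨w', hw', rfl⟩ := hv
      have h3 : ((w' * g : G) : G ⧸ K') = ((w * g : G) : G ⧸ K') := by
        have h4 := hco _ _ hvw
        rw [← h4, QuotientGroup.eq]
        have : (w' * g)⁻¹ * (w' * s * g) = g⁻¹ * s * g := by group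
        rw [this]
        exact h1 g
      have h5 := hinj g w' hw' w hw h3
      subst h5
      rw [eq_comm, QuotientGroup.eq] at hvw
      have : (w' * g)⁻¹ * (w' * s * g) = g⁻¹ * s * g := by group
      rw [this] at hvw
      exact h2 g hvw

theorem Sep.mono {l : List G} {K H D' : Subgroup G} [D'.Normal] (hl : ∀ s ∈ l, s ∈ D')
    (h : H ⊓ D' ≤ K) (hs : Sep l K) : Sep l H := by
  intro g
  have hnd : (Ws l).Nodup := List.Nodup.of_map _ (hs g)
  refine hnd.map_on fun w hw w' hw' hww' => List.inj_on_of_nodup_map (hs g) hw hw' ?_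
  rw [QuotientGroup.eq] at hww' ⊢
  refine h ⟨hww', ?_⟩
  have hwD := Ws_subset l hl w hw
  have hwD' := Ws_subset l hl w' hw'
  have : (w * g)⁻¹ * (w' * g) = g⁻¹ * (w⁻¹ * w') * (g⁻¹)⁻¹ := by group
  rw [this]
  exact Normal.conj_mem inferInstance _ (D'.mul_mem (D'.inv_mem hwD) hwD') _

/-- one step of the selection -/
theorem step {m : ℕ} (hm : 1 ≤ m) {s : G} (hs : s ∈ D G m) {K : Subgroup G}
    (hK : D G (m + 1) ≤ K) (hsK : s ∉ K) : ∃ K' : Subgroup G, K ≤ K' ∧ (∀ g, g⁻¹ * s * g ∈ K') ∧
      (∀ g, g⁻¹ * s * g ∉ K) ∧ ∀ n, K.relIndex (D G n) ≤ 2 * K'.relIndex (D G n) := by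
  have hconj : ∀ g, s⁻¹ * (g⁻¹ * s * g) ∈ D G (m + 1) := by
    intro g
    have h1 := comm_mem_D (inv_mem hs) (show g⁻¹ ∈ D G 1 by rw [D_one]; trivial)
    have : s⁻¹ * (g⁻¹ * s * g) = s⁻¹ * g⁻¹ * s⁻¹⁻¹ * g⁻¹⁻¹ := by group
    rw [this]; exact h1
  have hss : s * s ∈ K := by
    have h1 := sq_mem_D hs
    rw [pow_two] at h1
    exact hK (D_anti (by omega) h1)
  -- `s` normalizes `K`
  have hnorm : ∀ k ∈ K, s⁻¹ * k * s ∈ K := by
    intro k hk
    have h1 := hK (hconj k)
    have h2 : s⁻¹ * k * s = k * (s⁻¹ * (k⁻¹ * s * k))⁻¹⁻¹ * 1 ∨ True := Or.inr trivial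
    have h3 := K.mul_mem hk (hK ((D_normal (G := G) (m + 1)).conj_mem _ (hconj k) 1))
    have h4 := comm_mem_D (inv_mem hs) (show k ∈ D G 1 by rw [D_one]; trivial)
    have h5 : s⁻¹ * k * s = s⁻¹ * k * s⁻¹⁻¹ * k⁻¹ * k := by group
    rw [h5]
    exact K.mul_mem (hK h4) hk
  let K' : Subgroup G :=
    { carrier := {g | g ∈ K ∨ g * s ∈ K}
      one_mem' := Or.inl K.one_mem
      mul_mem' := by
        rintro a b (ha | ha) (hb | hb)
        · exact Or.inl (K.mul_mem ha hb)
        · right
          rw [mul_assoc]; exact K.mul_mem ha hb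
        · right
          have : a * b * s = (a * s) * (s⁻¹ * b * s) := by group
          rw [this]
          exact K.mul_mem ha (hnorm b hb)
        · left
          have : a * b = (a * s) * (s⁻¹ * (b * s) * s) * (s * s)⁻¹ := by group
          rw [this]
          exact K.mul_mem (K.mul_mem ha (hnorm _ hb)) (K.inv_mem hss)
      inv_mem' := by
        rintro a (ha | ha)
        · exact Or.inl (K.inv_mem ha)
        · right
          have : a⁻¹ * s = (s * s) * (s⁻¹ * (a * s)⁻¹ * s) := by group
          rw [this]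
          exact K.mul_mem hss (hnorm _ (K.inv_mem ha)) }
  have hKK' : K ≤ K' := fun g hg => Or.inl hg
  have hsK' : s ∈ K' := Or.inr hss
  have hrel : K.relIndex K' = 2 := by
    rw [relIndex_eq_two_iff]
    refine ⟨s, hsK', fun b hb => ?_⟩
    rcases hb with hb | hb
    · right
      refine ⟨hb, fun h => hsK ?_⟩
      have := K.mul_mem (K.inv_mem hb) h
      simpa using this
    · left
      refine ⟨hb, fun h => hsK ?_⟩
      have := K.mul_mem (K.inv_mem h) hb
      simpa using this
  refine ⟨K', hKK', ?_, ?_, ?_⟩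
  · intro g
    have h1 := K'.mul_mem hsK' (hKK' (hK (hconj g)))
    simpa [mul_assoc] using h1
  · intro g hg
    apply hsK
    have h1 := K.mul_mem hg (K.inv_mem (hK (hconj g)))
    have h2 : g⁻¹ * s * g * (s⁻¹ * (g⁻¹ * s * g))⁻¹ = s := by group
    rwa [h2] at h1
  · intro n
    have h1 := relIndex_inf_mul_relIndex K K' (D G n)
    rw [inf_eq_left.2 hKK'] at h1
    rw [← h1]
    refine Nat.mul_le_mul_right _ ?_
    rw [← hrel]
    exact relIndex_le_of_le_right inf_le_left (by rw [hrel]; norm_num)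

/-- some element of `B` avoids at least half of the given subgroups -/
theorem avoid {ι : Type*} (N B : Subgroup G) [N.Normal] (hN : N.index ≠ 0) (I : Finset ι)
    (K : ι → Subgroup G) (hNK : ∀ i ∈ I, N ≤ K i) (hBK : ∀ i ∈ I, ¬ B ≤ K i) [∀ s : G, DecidablePred fun i => s ∉ K i] :
    ∃ s ∈ B, I.card ≤ 2 * (I.filter fun i => s ∉ K i).card := by
  classical
  have : N.FiniteIndex := ⟨hN⟩
  set π := QuotientGroup.mk' N with hπ
  have hfin : Fintype (G ⧸ N) := Fintype.ofFinite _
  set B' := B.map π with hB'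
  by_contra hcon
  push Not at hcon
  -- double counting
  have hlt : ∀ q : B', 2 * (I.filter fun i => (q : G ⧸ N) ∉ (K i).map π).card < I.card := by
    rintro ⟨q, hq⟩
    obtain ⟨s, hs, rfl⟩ := hq
    refine lt_of_le_of_lt (Nat.mul_le_mul_left 2 (Finset.card_le_card ?_)) (hcon s hs)
    intro i hi
    rw [Finset.mem_filter] at hi ⊢
    refine ⟨hi.1, fun h => hi.2 ⟨s, h, rfl⟩⟩
  have hsum : ∑ q : B', 2 * (I.filter fun i => (q : G ⧸ N) ∉ (K i).map π).card <
      ∑ _q : B', I.card := by
    refine Finset.sum_lt_sum_of_nonempty ⟨1, Finset.mem_univ _⟩ fun q _ => hlt q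
  have hswap : ∑ q : B', (I.filter fun i => (q : G ⧸ N) ∉ (K i).map π).card =
      ∑ i ∈ I, (Finset.univ.filter fun q : B' => (q : G ⧸ N) ∉ (K i).map π).card := by
    simp only [Finset.card_filter]
    exact Finset.sum_comm
  have hhalf : ∀ i ∈ I, Fintype.card B' ≤
      2 * (Finset.univ.filter fun q : B' => (q : G ⧸ N) ∉ (K i).map π).card := by
    intro i hi
    set C := ((K i).map π).subgroupOf B' with hC
    have hCtop : C ≠ ⊤ := by
      intro h
      apply hBK i hi
      intro b hb
      have h1 : (⟨π b, ⟨b, hb, rfl⟩⟩ : B') ∈ C := by rw [h]; trivial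
      rw [hC, mem_subgroupOf] at h1
      obtain ⟨k, hk, hkb⟩ := h1
      have h2 : k⁻¹ * b ∈ N := by
        have : (k : G ⧸ N) = (b : G ⧸ N) := hkb
        rwa [QuotientGroup.eq] at this
      have h3 := (K i).mul_mem hk (hNK i hi h2)
      simpa using h3
    have hCi : 2 ≤ C.index := by
      have h1 : C.index ≠ 1 := fun h => hCtop (index_eq_one.1 h)
      have h2 : C.index ≠ 0 := by
        have := card_mul_index C
        intro h0
        rw [h0, mul_zero] at this
        exact Nat.card_pos.ne this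
      omega
    have hcard := card_mul_index C
    have h4 : Nat.card C + (Finset.univ.filter fun q : B' => (q : G ⧸ N) ∉ (K i).map π).card =
        Fintype.card B' := by
      have h5 : Nat.card C = (Finset.univ.filter fun q : B' => (q : G ⧸ N) ∈ (K i).map π).card := by
        rw [Nat.card_eq_fintype_card, ← Fintype.card_coe]
        refine Fintype.card_congr ⟨fun q => ⟨q.1, by
          rw [Finset.mem_filter]; exact ⟨Finset.mem_univ _, q.2⟩⟩, fun q => ⟨q.1, ?_⟩,
          fun _ => rfl, fun _ => rfl⟩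
        have := q.2
        rw [Finset.mem_filter] at this
        exact this.2
      rw [h5, ← Finset.card_univ]
      exact Finset.card_filter_add_card_filter_not _
    rw [Nat.card_eq_fintype_card (α := B')] at hcard
    have h6 : 2 * Nat.card C ≤ Fintype.card B' := by
      rw [← hcard, mul_comm]
      exact Nat.mul_le_mul_left _ hCi
    omega
  rw [← Finset.mul_sum, hswap, Finset.mul_sum] at hsum
  have h7 : ∑ _q : B', I.card = ∑ _i ∈ I, Fintype.card B' := by
    rw [Finset.sum_const, Finset.sum_const, Finset.card_univ, smul_eq_mul, smul_eq_mul, mul_comm]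
  rw [h7] at hsum
  exact absurd (Finset.sum_le_sum hhalf) (not_le.2 hsum)

end Pool.Agent.W351.GS
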