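import Pool.Agent.W351.GS5

set_option autoImplicit false

namespace Pool.Agent.W351.GS

open Subgroup

variable {G : Type*} [Group G]

open Classical in
/-- one tuple which is good for many subgroups -/
theorem select {n x : ℕ} (hn : 1 ≤ n) (hx : (D G x).index ≠ 0) {ι : Type*} (k : ℕ) :
    ∀ (I : Finset ι) (K : ι → Subgroup G), (∀ i ∈ I, D G x ≤ K i) →
      (∀ i ∈ I, 2 ^ k ≤ (K i).relIndex (D G n)) →
      ∃ l : List G, l.length = k ∧ (∀ s ∈ l, s ∈ D G n) ∧
        I.card ≤ (I.filter fun i => Good l (K i)).card * (2 * x) ^ k := by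
  induction k with
  | zero =>
    intro I K _ _
    refine ⟨[], rfl, by simp, ?_⟩
    rw [pow_zero, mul_one]
    apply Finset.card_le_card
    intro i hi
    rw [Finset.mem_filter]
    exact ⟨hi, trivial⟩
  | succ k ih =>
    intro I K hDK hrel
    by_cases hI : I = ∅
    · subst hI
      exact ⟨List.replicate (k + 1) 1, by simp, by
        intro s hs
        rw [List.eq_of_mem_replicate hs]; exact Subgroup.one_mem _, by simp⟩
    have hex : ∀ i ∈ I, ∃ m, 1 ≤ m ∧ m < x ∧ n ≤ m ∧ D G (m + 1) ≤ K i ∧ ¬ D G m ≤ K i := by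
      intro i hi
      have h0 : ∃ m, D G m ≤ K i := ⟨x, hDK i hi⟩
      set m := Nat.find h0 with hm
      have h1 : D G m ≤ K i := Nat.find_spec h0
      have h2 : m ≤ x := Nat.find_min' h0 (hDK i hi)
      have h3 : n < m := by
        by_contra hle
        push Not at hle
        have h4 : D G n ≤ K i := (D_anti hle).trans h1
        have h5 := hrel i hi
        rw [relIndex_eq_one.2 h4, pow_succ] at h5
        have : 0 < 2 ^ k := by positivity
        omega
      refine ⟨m - 1, by omega, by omega, by omega, ?_, ?_⟩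
      · rwa [Nat.sub_add_cancel (by omega)]
      · exact Nat.find_min h0 (by omega)
    choose! f hf1 hf2 hf3 hf4 hf5 using hex
    -- pigeonhole
    obtain ⟨i₀, hi₀⟩ := Finset.nonempty_iff_ne_empty.2 hI
    have hx0 : (Finset.range x).Nonempty := ⟨f i₀, Finset.mem_range.2 (hf2 i₀ hi₀)⟩
    obtain ⟨m, hm, hmax⟩ := Finset.exists_max_image (Finset.range x)
      (fun m => (I.filter fun i => f i = m).card) hx0
    set I₁ := I.filter fun i => f i = m with hI₁
    have hcard1 : I.card ≤ x * I₁.card := by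
      rw [Finset.card_eq_sum_card_fiberwise (f := f) (t := Finset.range x)
        (fun i hi => Finset.mem_range.2 (hf2 i hi))]
      calc _ ≤ ∑ _m ∈ Finset.range x, I₁.card := Finset.sum_le_sum fun b hb => hmax b hb
        _ = _ := by rw [Finset.sum_const, Finset.card_range, smul_eq_mul]
    have hI₁mem : ∀ i ∈ I₁, i ∈ I ∧ f i = m := fun i hi => by
      rw [hI₁, Finset.mem_filter] at hi; exact hi
    obtain ⟨s, hs, hcard2⟩ := avoid (D G x) (D G m) hx I₁ K
      (fun i hi => hDK i (hI₁mem i hi).1)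
      (fun i hi => by
        have := hf5 i (hI₁mem i hi).1
        rwa [(hI₁mem i hi).2] at this)
    set I₂ := I₁.filter fun i => s ∉ K i with hI₂
    have hI₂mem : ∀ i ∈ I₂, i ∈ I ∧ f i = m ∧ s ∉ K i := fun i hi => by
      rw [hI₂, Finset.mem_filter] at hi
      exact ⟨(hI₁mem i hi.1).1, (hI₁mem i hi.1).2, hi.2⟩
    have hstep : ∀ i ∈ I₂, ∃ K' : Subgroup G, K i ≤ K' ∧ (∀ g, g⁻¹ * s * g ∈ K') ∧
        (∀ g, g⁻¹ * s * g ∉ K i) ∧ ∀ n, (K i).relIndex (D G n) ≤ 2 * K'.relIndex (D G n) := by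
      intro i hi
      obtain ⟨h1, h2, h3⟩ := hI₂mem i hi
      refine step (m := m) ?_ hs ?_ h3
      · rw [← h2]; exact hf1 i h1
      · rw [← h2]; exact hf4 i h1
    choose! K' hK1 hK2 hK3 hK4 using hstep
    obtain ⟨l, hl1, hl2, hl3⟩ := ih I₂ K'
      (fun i hi => (hDK i (hI₂mem i hi).1).trans (hK1 i hi))
      (fun i hi => by
        have h1 := hrel i (hI₂mem i hi).1
        have h2 := hK4 i hi n
        rw [pow_succ] at h1
        omega)
    refine ⟨s :: l, by rw [List.length_cons, hl1], ?_, ?_⟩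
    · intro y hy
      rcases List.mem_cons.1 hy with rfl | hy
      · obtain ⟨i, hi⟩ : I₁.Nonempty := by
          rw [← Finset.card_pos]
          have : 0 < I.card := Finset.card_pos.2 ⟨i₀, hi₀⟩
          by_contra h0
          have : I₁.card = 0 := by omega
          rw [this, mul_zero] at hcard1
          omega
        have h1 := hf3 i (hI₁mem i hi).1
        rw [(hI₁mem i hi).2] at h1
        exact D_anti h1 hs
      · exact hl2 y hy
    · have hsub : (I₂.filter fun i => Good l (K' i)) ⊆ I.filter fun i => Good (s :: l) (K i) := by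
        intro i hi
        rw [Finset.mem_filter] at hi ⊢
        exact ⟨(hI₂mem i hi.1).1, K' i, hK1 i hi.1, hK2 i hi.1, hK3 i hi.1, hi.2⟩
      have h1 := Finset.card_le_card hsub
      calc I.card ≤ x * I₁.card := hcard1
        _ ≤ x * (2 * I₂.card) := Nat.mul_le_mul_left _ hcard2
        _ ≤ x * (2 * ((I₂.filter fun i => Good l (K' i)).card * (2 * x) ^ k)) :=
            Nat.mul_le_mul_left _ (Nat.mul_le_mul_left _ hl3)
        _ ≤ x * (2 * ((I.filter fun i => Good (s :: l) (K i)).card * (2 * x) ^ k)) :=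
            Nat.mul_le_mul_left _ (Nat.mul_le_mul_left _ (Nat.mul_le_mul_right _ h1))
        _ = _ := by rw [pow_succ]; ring

open Classical in
/-- greedy covering, one round -/
theorem greedy_half {ι τ : Type*} (Q : τ → Prop) (hit : τ → ι → Prop) (c : ℕ)
    (I : Finset ι) (h : ∀ I' ⊆ I, ∃ t, Q t ∧ I'.card ≤ (I'.filter (hit t)).card * c) :
    ∃ T : Finset τ, T.card ≤ c ∧ (∀ t ∈ T, Q t) ∧
      2 * (I.filter fun i => ∀ t ∈ T, ¬ hit t i).card ≤ I.card := by
  have key : ∀ j : ℕ, ∃ T : Finset τ, T.card ≤ j ∧ (∀ t ∈ T, Q t) ∧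
      (2 * (I.filter fun i => ∀ t ∈ T, ¬ hit t i).card ≤ I.card ∨
        j * I.card + 2 * c * (I.filter fun i => ∀ t ∈ T, ¬ hit t i).card ≤ 2 * c * I.card) := by
    intro j
    induction j with
    | zero =>
      refine ⟨∅, by simp, by simp, Or.inr ?_⟩
      rw [zero_mul, zero_add]
      exact Nat.mul_le_mul_left _ (Finset.card_filter_le _ _)
    | succ j ih =>
      obtain ⟨T, hT1, hT2, hT3⟩ := ih
      rcases hT3 with hT3 | hT3
      · exact ⟨T, by omega, hT2, Or.inl hT3⟩
      by_cases hhalf : 2 * (I.filter fun i => ∀ t ∈ T, ¬ hit t i).card ≤ I.card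
      · exact ⟨T, by omega, hT2, Or.inl hhalf⟩
      push Not at hhalf
      obtain ⟨t, ht1, ht2⟩ := h (I.filter fun i => ∀ t ∈ T, ¬ hit t i) (Finset.filter_subset _ _)
      refine ⟨insert t T, (Finset.card_insert_le _ _).trans (by omega), ?_, Or.inr ?_⟩
      · intro t' ht'
        rcases Finset.mem_insert.1 ht' with rfl | ht'
        · exact ht1
        · exact hT2 t' ht'
      · have h1 : (I.filter fun i => ∀ t' ∈ insert t T, ¬ hit t' i) =
            (I.filter fun i => ∀ t ∈ T, ¬ hit t i).filter fun i => ¬ hit t i := by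
          ext i
          simp only [Finset.mem_filter, Finset.mem_insert, forall_eq_or_imp]
          tauto
        have h2 := Finset.card_filter_add_card_filter_not (s := I.filter fun i => ∀ t ∈ T, ¬ hit t i)
          (hit t)
        rw [← h1] at h2
        set u := (I.filter fun i => ∀ t ∈ T, ¬ hit t i).card
        set u' := (I.filter fun i => ∀ t' ∈ insert t T, ¬ hit t' i).card
        set r := ((I.filter fun i => ∀ t ∈ T, ¬ hit t i).filter (hit t)).card
        nlinarith
  obtain ⟨T, hT1, hT2, hT3⟩ := key c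
  refine ⟨T, hT1, hT2, ?_⟩
  rcases hT3 with hT3 | hT3
  · exact hT3
  · by_cases hc : c = 0
    · subst hc
      obtain ⟨t, _, ht⟩ := h I le_rfl
      rw [mul_zero] at ht
      have : I.card = 0 := by omega
      rw [Finset.card_eq_zero] at this
      subst this
      simp
    · have hc' : 0 < c := Nat.pos_of_ne_zero hc
      set u := (I.filter fun i => ∀ t ∈ T, ¬ hit t i).card
      by_contra hcon
      push Not at hcon
      nlinarith

open Classical in
/-- greedy covering -/
theorem greedy {ι τ : Type*} (Q : τ → Prop) (hit : τ → ι → Prop) (c b : ℕ) :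
    ∀ I : Finset ι, (∀ I' ⊆ I, ∃ t, Q t ∧ I'.card ≤ (I'.filter (hit t)).card * c) →
    I.card < 2 ^ b → ∃ T : Finset τ, T.card ≤ c * b ∧ (∀ t ∈ T, Q t) ∧ ∀ i ∈ I, ∃ t ∈ T, hit t i := by
  induction b with
  | zero =>
    intro I _ hI
    rw [pow_zero] at hI
    have : I = ∅ := Finset.card_eq_zero.1 (by omega)
    subst this
    exact ⟨∅, by simp, by simp, by simp⟩
  | succ b ih =>
    intro I h hI
    obtain ⟨T, hT1, hT2, hT3⟩ := greedy_half Q hit c I h
    obtain ⟨T', hT1', hT2', hT3'⟩ := ih (I.filter fun i => ∀ t ∈ T, ¬ hit t i)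
      (fun I' hI' => h I' (hI'.trans (Finset.filter_subset _ _))) (by
        rw [pow_succ] at hI
        omega)
    refine ⟨T ∪ T', (Finset.card_union_le _ _).trans (by rw [mul_add, mul_one]; omega), ?_, ?_⟩
    · intro t ht
      rcases Finset.mem_union.1 ht with ht | ht
      · exact hT2 t ht
      · exact hT2' t ht
    · intro i hi
      by_cases hi' : ∃ t ∈ T, hit t i
      · obtain ⟨t, ht, hti⟩ := hi'
        exact ⟨t, Finset.mem_union_left _ ht, hti⟩
      · push Not at hi'
        obtain ⟨t, ht, hti⟩ := hT3' i (Finset.mem_filter.2 ⟨hi, hi'⟩)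
        exact ⟨t, Finset.mem_union_right _ ht, hti⟩

/-- a small family of tuples good for all subgroups of a finite set -/
theorem family {n x k b : ℕ} (hn : 1 ≤ n) (hx : (D G x).index ≠ 0) (I : Set (Subgroup G))
    (hfin : I.Finite) (hI : I.ncard < 2 ^ b) (h1 : ∀ K ∈ I, D G x ≤ K)
    (h2 : ∀ K ∈ I, 2 ^ k ≤ K.relIndex (D G n)) :
    ∃ T : Finset (List G), T.card ≤ (2 * x) ^ k * b ∧
      (∀ l ∈ T, l.length = k ∧ ∀ s ∈ l, s ∈ D G n) ∧ ∀ K ∈ I, ∃ l ∈ T, Good l K := by
  classical
  obtain ⟨T, hT1, hT2, hT3⟩ := greedy (fun l : List G => l.length = k ∧ ∀ s ∈ l, s ∈ D G n)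
    (fun l K => Good l K) ((2 * x) ^ k) b hfin.toFinset (by
      intro I' hI'
      have hmem : ∀ K ∈ I', K ∈ I := fun K hK => by
        have := hI' hK
        rwa [Set.Finite.mem_toFinset] at this
      obtain ⟨l, hl1, hl2, hl3⟩ := select hn hx k I' id (fun K hK => h1 K (hmem K hK))
        (fun K hK => h2 K (hmem K hK))
      exact ⟨l, ⟨hl1, hl2⟩, hl3⟩) (by
      rwa [← Set.ncard_eq_toFinset_card _ hfin])
  refine ⟨T, hT1, hT2, fun K hK => hT3 K ?_⟩
  rwa [Set.Finite.mem_toFinset]

end Pool.Agent.W351.GS
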