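import Pool.Agent.W351.GS6

set_option autoImplicit false

namespace Pool.Agent.W351.GS

open Subgroup

variable {G : Type*} [Group G]

theorem D_pgroup (x : ℕ) : IsPGroup 2 (G ⧸ D G x) := by
  intro g
  induction g using QuotientGroup.induction_on with | H g =>
  refine ⟨x, ?_⟩
  rw [← QuotientGroup.mk_pow, QuotientGroup.eq_one_iff]
  exact D_anti (Nat.lt_two_pow_self).le (pow_mem_D g x)

theorem relIndex_ne (B N : Subgroup G) (hN : N.index ≠ 0) : N.relIndex B ≠ 0 := by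
  have : N.FiniteIndex := ⟨hN⟩
  have := isFiniteRelIndex_of_finiteIndex (H := N) (K := B)
  exact relIndex_ne_zero

theorem sup_relIndex (B N : Subgroup G) [N.Normal] (hN : N.index ≠ 0) :
    B.relIndex (B ⊔ N) = B.relIndex N := by
  have : N.FiniteIndex := ⟨hN⟩
  have h1 := relIndex_mul_relIndex (B ⊓ N) B (B ⊔ N) inf_le_left le_sup_left
  have h2 := relIndex_mul_relIndex (B ⊓ N) N (B ⊔ N) inf_le_right le_sup_right
  rw [inf_relIndex_left] at h1
  rw [inf_relIndex_right, relIndex_sup_right] at h2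
  have h3 : N.relIndex B ≠ 0 := relIndex_ne B N hN
  have h4 : N.relIndex B * B.relIndex (B ⊔ N) = N.relIndex B * B.relIndex N := by
    rw [h1, ← h2, mul_comm]
  exact Nat.eq_of_mul_eq_mul_left (Nat.pos_of_ne_zero h3) h4

theorem relIndex_step (K : Subgroup G) {n x : ℕ} (hnx : n ≤ x) (hx : (D G x).index ≠ 0) :
    K.relIndex (D G n) =
      K.relIndex (D G x) * ((K ⊓ D G n) ⊔ D G x).relIndex (D G n) := by
  have hle : D G x ≤ D G n := D_anti hnx
  have h1 := relIndex_mul_relIndex (K ⊓ D G n) ((K ⊓ D G n) ⊔ D G x) (D G n) le_sup_left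
    (sup_le inf_le_right hle)
  rw [inf_relIndex_right, sup_relIndex _ _ hx] at h1
  rw [← h1]
  congr 1
  rw [← inf_relIndex_right K (D G x), ← inf_relIndex_right (K ⊓ D G n) (D G x), inf_assoc,
    inf_eq_right.2 hle]

theorem typeII (S : Finset G) (hS : closure (S : Set G) = ⊤) {n x : ℕ} (hn : 1 ≤ n) (hnx : n ≤ x)
    (k : ℕ) : ∃ T : Finset (List G), T.card ≤ (2 * x) ^ k * (k * (S.card + 1) ^ x + 1) ∧
      (∀ l ∈ T, l.length = k ∧ ∀ s ∈ l, s ∈ D G n) ∧
      ∀ K : Subgroup G, 2 ^ k ≤ ((K ⊓ D G n) ⊔ D G x).relIndex (D G n) → ∃ l ∈ T, Sep l K := by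
  classical
  obtain ⟨hx0, hxle⟩ := index_D S hS x
  have : (D G x).FiniteIndex := ⟨hx0⟩
  set N : Subgroup (D G n) := (D G x).subgroupOf (D G n) with hN
  have hle : D G x ≤ D G n := D_anti hnx
  have hNi : N.index ≠ 0 := by
    exact relIndex_ne _ _ hx0
  have hNle : N.index ≤ 2 ^ (S.card + 1) ^ x := by
    have h1 : N.index * (D G n).index = (D G x).index := relIndex_mul_index hle
    have h2 : (D G n).index ≠ 0 := (index_D S hS n).1
    refine le_trans ?_ hxle
    rw [← h1]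
    exact Nat.le_mul_of_pos_right _ (Nat.pos_of_ne_zero h2)
  have hp : IsPGroup 2 (D G n ⧸ N) := by
    intro g
    induction g using QuotientGroup.induction_on with | H g =>
    refine ⟨x, ?_⟩
    rw [← QuotientGroup.mk_pow, QuotientGroup.eq_one_iff, hN, mem_subgroupOf]
    exact D_anti (Nat.lt_two_pow_self).le (pow_mem_D (g : G) x)
  have hE : ∀ K : Subgroup (D G n), N ≤ K → K.index ≠ 0 → K ≠ ⊤ →
      ∃ L, K ≤ L ∧ K.relIndex L = 2 := fun K hK _ hK2 => exists_double N hNi hp K hK hK2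
  obtain ⟨hfin, hcard⟩ := count (N := N) (fun _ => (S.card + 1) ^ x) hE (by
    intro j K hNK _
    have h1 := relIndex_mul_index hNK
    refine exists_gens _ N K hNK ?_ ?_
    · intro h0
      rw [h0, zero_mul] at h1
      exact hNi h1.symm
    · refine le_trans ?_ hNle
      rw [← h1]
      refine Nat.le_mul_of_pos_right _ (Nat.pos_of_ne_zero fun h0 => ?_)
      rw [h0, mul_zero] at h1
      exact hNi h1.symm) k
  rw [Finset.sum_const, Finset.card_range, smul_eq_mul] at hcard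
  set Q := {K : Subgroup (D G n) | N ≤ K ∧ K.index = 2 ^ k} with hQ
  obtain ⟨T, hT1, hT2, hT3⟩ := family (b := k * (S.card + 1) ^ x + 1) (k := k) hn hx0
    ((fun Y : Subgroup (D G n) => Y.map (D G n).subtype) '' Q) (hfin.image _)
    (lt_of_le_of_lt ((Set.ncard_image_le hfin).trans hcard)
      (Nat.pow_lt_pow_right (by norm_num) (Nat.lt_succ_self _)))
    (by
      rintro _ ⟨Y, ⟨hY, _⟩, rfl⟩ g hg
      exact ⟨⟨g, hle hg⟩, hY (by rw [hN, mem_subgroupOf]; exact hg), rfl⟩)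
    (by
      rintro _ ⟨Y, ⟨_, hY⟩, rfl⟩
      show 2 ^ k ≤ ((Y.map (D G n).subtype).subgroupOf (D G n)).index
      rw [subgroupOf, comap_map_eq_self_of_injective (subtype_injective _), hY])
  refine ⟨T, hT1, hT2, ?_⟩
  intro K hK
  set Y₀ : Subgroup (D G n) := ((K ⊓ D G n) ⊔ D G x).subgroupOf (D G n) with hY₀
  have hNY : N ≤ Y₀ := by
    intro g hg
    rw [hN, mem_subgroupOf] at hg
    rw [hY₀, mem_subgroupOf]
    exact (le_sup_right : D G x ≤ _) hg
  have hY₀i : Y₀.index ≠ 0 := by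
    have h2 : 2 ^ k ≤ Y₀.index := hK
    have : 0 < 2 ^ k := by positivity
    omega
  obtain ⟨Y, hY1, hY2⟩ := exists_index (K := Y₀)
    (fun L hL hL2 => exists_double N hNi hp L (hNY.trans hL) hL2) hY₀i k hK
  obtain ⟨l, hl1, hl2⟩ := hT3 _ ⟨Y, ⟨hNY.trans hY1, hY2⟩, rfl⟩
  refine ⟨l, hl1, Sep.mono (D' := D G n) (hT2 l hl1).2 ?_ (hl2.sep)⟩
  rintro g ⟨hg1, hg2⟩
  refine ⟨⟨g, hg2⟩, hY1 ?_, rfl⟩
  rw [hY₀, mem_subgroupOf]
  exact (le_sup_left : K ⊓ D G n ≤ _) ⟨hg1, hg2⟩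

theorem typeIII (S : Finset G) (hS : closure (S : Set G) = ⊤) {n : ℕ} (hn : 1 ≤ n) (j k : ℕ) :
    ∃ T : Finset (List G), T.card ≤ (2 * 2 ^ j) ^ k * (S.card * 2 ^ j + 1) ∧
      (∀ l ∈ T, l.length = k ∧ ∀ s ∈ l, s ∈ D G n) ∧
      ∀ K : Subgroup G, Dbl K → K.index = 2 ^ j → 2 ^ k ≤ K.relIndex (D G n) →
        ∃ l ∈ T, Sep l K := by
  classical
  obtain ⟨hx0, _⟩ := index_D S hS (2 ^ j)
  obtain ⟨hfin, hcard⟩ := count (N := D G (2 ^ j)) (fun i => S.card * 2 ^ i)
    (fun K hK _ hK2 => exists_double _ hx0 (D_pgroup _) K hK hK2) (by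
    intro i K hNK hKi
    have : K.FiniteIndex := ⟨by rw [hKi]; positivity⟩
    obtain ⟨T, hT1, hT2⟩ := exists_finset_card_le_mul K hS
    refine ⟨T.image K.subtype, ?_, ?_⟩
    · refine Finset.card_image_le.trans (hT1.trans ?_)
      rw [hKi, mul_comm]
    · rw [Finset.coe_image, ← MonoidHom.map_closure, hT2, ← MonoidHom.range_eq_map,
        range_subtype, sup_eq_left.2 hNK]) j
  have hsum : ∑ i ∈ Finset.range j, S.card * 2 ^ i ≤ S.card * 2 ^ j := by
    rw [← Finset.mul_sum]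
    refine Nat.mul_le_mul_left _ ?_
    have := Nat.geomSum_lt (m := 2) (n := j) (s := Finset.range j) le_rfl
      (fun k hk => Finset.mem_range.1 hk)
    exact this.le
  set Q := {K : Subgroup G | D G (2 ^ j) ≤ K ∧ K.index = 2 ^ j ∧ 2 ^ k ≤ K.relIndex (D G n)}
    with hQ
  have hsub : Q ⊆ {K : Subgroup G | D G (2 ^ j) ≤ K ∧ K.index = 2 ^ j} := fun K hK =>
    ⟨hK.1, hK.2.1⟩
  obtain ⟨T, hT1, hT2, hT3⟩ := family (b := S.card * 2 ^ j + 1) (k := k) hn hx0 Q
    (hfin.subset hsub)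
    (lt_of_le_of_lt (((Set.ncard_le_ncard hsub hfin).trans hcard).trans
      (Nat.pow_le_pow_right (by norm_num) hsum))
      (Nat.pow_lt_pow_right (by norm_num) (Nat.lt_succ_self _)))
    (fun K hK => hK.1) (fun K hK => hK.2.2)
  refine ⟨T, hT1, hT2, ?_⟩
  intro K hE hKi hrel
  obtain ⟨l, hl1, hl2⟩ := hT3 K ⟨D_le hE (by rw [hKi]; positivity) (by rw [hKi]), hKi, hrel⟩
  exact ⟨l, hl1, hl2.sep⟩

/-- the dichotomy -/
theorem dichotomy (S : Finset G) (hS : closure (S : Set G) = ⊤) {L w k : ℕ} (i : ℕ)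
    (K : Subgroup G) (hK : K.index = 2 ^ ((S.card + 1) ^ L + k * i + k)) :
    (∃ a < i, 2 ^ k ≤ ((K ⊓ D G (L + w * a)) ⊔ D G (L + w * (a + 1))).relIndex (D G (L + w * a))) ∨
      2 ^ k ≤ K.relIndex (D G (L + w * i)) := by
  by_contra hcon
  push Not at hcon
  obtain ⟨h1, h2⟩ := hcon
  have key : ∀ a ≤ i, 2 ^ ((S.card + 1) ^ L + k * i + k) ≤
      2 ^ ((S.card + 1) ^ L + k * a) * K.relIndex (D G (L + w * a)) := by
    intro a
    induction a with
    | zero =>
      intro _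
      rw [mul_zero, mul_zero, add_zero, add_zero, ← hK]
      obtain ⟨h3, h4⟩ := index_D S hS L
      have : (D G L).FiniteIndex := ⟨h3⟩
      have : K.FiniteIndex := ⟨by rw [hK]; positivity⟩
      have h5 := relIndex_mul_index (inf_le_right : K ⊓ D G L ≤ D G L)
      rw [inf_relIndex_right] at h5
      calc K.index ≤ (K ⊓ D G L).index := index_antitone inf_le_left
        _ = K.relIndex (D G L) * (D G L).index := h5.symm
        _ ≤ K.relIndex (D G L) * 2 ^ (S.card + 1) ^ L := Nat.mul_le_mul_left _ h4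
        _ = _ := mul_comm _ _
    | succ a ih =>
      intro ha
      refine (ih (by omega)).trans ?_
      rw [relIndex_step K (n := L + w * a) (x := L + w * (a + 1)) (by rw [mul_add]; omega)
        (index_D S hS _).1]
      have h3 := (h1 a (by omega)).le
      calc _ ≤ 2 ^ ((S.card + 1) ^ L + k * a) * (K.relIndex (D G (L + w * (a + 1))) * 2 ^ k) :=
            Nat.mul_le_mul_left _ (Nat.mul_le_mul_left _ h3)
        _ = _ := by rw [mul_add k a 1, mul_one, ← add_assoc, pow_add _ _ k]; ring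
  have h3 := key i le_rfl
  rw [pow_add _ _ k] at h3
  have h4 := Nat.le_of_mul_le_mul_left h3 (by positivity)
  omega

end Pool.Agent.W351.GS
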