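import Pool.Agent.W351.GS7

set_option autoImplicit false

namespace Pool.Agent.W351.GS

open Subgroup Filter Topology

/-- cost of the families of the first kind -/
noncomputable def costII (k w n : ℕ) : ℝ :=
  (2 * ((n : ℝ) + w)) ^ k * (k * 4 ^ (n + w) + 1) * (4 / 25) ^ n

theorem costII_nonneg (k w n : ℕ) : 0 ≤ costII k w n := by
  unfold costII; positivity

theorem summable_costII (k w : ℕ) : Summable (costII k w) := by
  have h1 : Summable fun n : ℕ => (n : ℝ) ^ k * (16 / 25 : ℝ) ^ n :=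
    summable_pow_mul_geometric_of_norm_lt_one k (by norm_num)
  have h2 : Summable fun n : ℕ => ((n : ℝ) + 1) ^ k * (16 / 25 : ℝ) ^ n := by
    have h3 := (summable_nat_add_iff 1).2 h1
    have h4 := h3.mul_left (25 / 16 : ℝ)
    refine h4.congr fun n => ?_
    push_cast
    rw [pow_succ]; ring
  refine Summable.of_nonneg_of_le (costII_nonneg k w) (fun n => ?_)
    (h2.mul_left (2 ^ k * (w + 1 : ℝ) ^ k * ((k + 1) * 4 ^ w)))
  unfold costII
  have e1 : (2 * ((n : ℝ) + w)) ^ k ≤ (2 * ((w + 1 : ℝ) * (n + 1))) ^ k := by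
    apply pow_le_pow_left₀ (by positivity)
    have hn : (0 : ℝ) ≤ n := Nat.cast_nonneg _
    have hw : (0 : ℝ) ≤ w := Nat.cast_nonneg _
    nlinarith [mul_nonneg hn hw]
  have e2 : (k * 4 ^ (n + w) + 1 : ℝ) ≤ (k + 1) * 4 ^ w * 4 ^ n := by
    have : (1 : ℝ) ≤ 4 ^ (n + w) := one_le_pow₀ (by norm_num)
    rw [pow_add] at this ⊢
    nlinarith
  calc (2 * ((n : ℝ) + w)) ^ k * (k * 4 ^ (n + w) + 1) * (4 / 25) ^ n
      ≤ (2 * ((w + 1 : ℝ) * (n + 1))) ^ k * ((k + 1) * 4 ^ w * 4 ^ n) * (4 / 25) ^ n := by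
        gcongr
    _ = 2 ^ k * (w + 1 : ℝ) ^ k * ((k + 1) * 4 ^ w) * ((n + 1) ^ k * (4 ^ n * (4 / 25) ^ n)) := by
        rw [mul_pow, mul_pow]; ring
    _ = _ := by
        have h5 : (4 : ℝ) ^ n * (4 / 25) ^ n = (16 / 25) ^ n := by rw [← mul_pow]; norm_num
        rw [h5]

theorem costIII_tendsto (k L : ℕ) (hk : 1 ≤ k) :
    Tendsto (fun i : ℕ => ((2 * 2 ^ (4 ^ L + k * i + k)) ^ k * (3 * 2 ^ (4 ^ L + k * i + k) + 1) : ℝ) *
      (4 / 25) ^ (L + k * (k + 1) * i)) atTop (𝓝 0) := by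
  set c := 4 ^ L + k with hc
  have hlim : Tendsto (fun i : ℕ => (2 : ℝ) ^ ((k + 1) * c + k + 2) * (8 / 25 : ℝ) ^ i) atTop (𝓝 0) := by
    have := (tendsto_pow_atTop_nhds_zero_of_lt_one (r := (8 / 25 : ℝ)) (by norm_num)
      (by norm_num)).const_mul ((2 : ℝ) ^ ((k + 1) * c + k + 2))
    simpa using this
  refine squeeze_zero (fun i => by positivity) (fun i => ?_) hlim
  set j := 4 ^ L + k * i + k with hj
  have e1 : (3 * 2 ^ j + 1 : ℝ) ≤ 2 ^ (j + 2) := by
    have : (1 : ℝ) ≤ 2 ^ j := one_le_pow₀ (by norm_num)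
    rw [pow_add (2 : ℝ) j 2]; nlinarith
  calc ((2 * 2 ^ j) ^ k * (3 * 2 ^ j + 1) : ℝ) * (4 / 25) ^ (L + k * (k + 1) * i)
      ≤ ((2 * 2 ^ j) ^ k * 2 ^ (j + 2)) * (4 / 25) ^ (k * (k + 1) * i) := by
        have h3 : (4 / 25 : ℝ) ^ (L + k * (k + 1) * i) ≤ (4 / 25) ^ (k * (k + 1) * i) :=
          pow_le_pow_of_le_one (by norm_num) (by norm_num) (by omega)
        gcongr
    _ = (2 : ℝ) ^ ((k + 1) * c + k + 2) * (8 / 25 : ℝ) ^ (k * (k + 1) * i) := by
        have h4 : (2 * 2 ^ j : ℝ) = 2 ^ (j + 1) := by rw [pow_succ]; ring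
        have h5 : (8 / 25 : ℝ) = 2 * (4 / 25) := by norm_num
        rw [h4, ← pow_mul, ← pow_add, h5, mul_pow, ← mul_assoc, ← pow_add]
        congr 2
        rw [hj, hc]; ring
    _ ≤ _ := by
        have h6 : (8 / 25 : ℝ) ^ (k * (k + 1) * i) ≤ (8 / 25) ^ i := by
          apply pow_le_pow_of_le_one (by norm_num) (by norm_num)
          exact Nat.le_mul_of_pos_left _ (by positivity)
        gcongr

theorem sum_union_le' {α : Type*} [DecidableEq α] (f : α → ℝ) (hf : ∀ a, 0 ≤ f a)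
    (A B : Finset α) : ∑ q ∈ A ∪ B, f q ≤ ∑ q ∈ A, f q + ∑ q ∈ B, f q := by
  rw [← Finset.sum_union_inter]
  have : 0 ≤ ∑ q ∈ A ∩ B, f q := Finset.sum_nonneg fun _ _ => hf _
  linarith

theorem sum_biUnion_le' {α β : Type*} [DecidableEq α] [DecidableEq β] (f : α → ℝ)
    (hf : ∀ a, 0 ≤ f a) (I : Finset β) (t : β → Finset α) :
    ∑ q ∈ I.biUnion t, f q ≤ ∑ i ∈ I, ∑ q ∈ t i, f q := by
  induction I using Finset.induction_on with
  | empty => simp
  | insert a I ha ih =>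
    rw [Finset.biUnion_insert, Finset.sum_insert ha]
    exact (sum_union_le' f hf _ _).trans (by linarith)

theorem famK {G : Type*} [Group G] (S : Finset G) (hS : closure (S : Set G) = ⊤)
    (hS3 : S.card = 3) (k : ℕ) (hk : 1 ≤ k) (δ : ℝ) (hδ : 0 < δ) :
    ∃ (T : Finset (List G × ℕ)) (j₀ : ℕ),
      (∀ q ∈ T, q.1.length = k ∧ (∀ s ∈ q.1, s ∈ D G q.2) ∧ 1 ≤ q.2) ∧
      ∑ q ∈ T, (4 / 25 : ℝ) ^ q.2 ≤ δ ∧
      ∀ H : Subgroup G, Dbl H → H.index ≠ 0 → 2 ^ j₀ ≤ H.index → ∃ q ∈ T, Sep q.1 H := by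
  classical
  set w := k * (k + 1) with hw
  have hw1 : 1 ≤ w := Nat.mul_pos hk (by omega)
  -- choice of the starting depth
  obtain ⟨L, hL1, hL2⟩ : ∃ L : ℕ, 1 ≤ L ∧ ∑' m, costII k w (m + L) < δ / 2 := by
    have h1 := tendsto_sum_nat_add (costII k w)
    have h2 := (h1.eventually_lt_const (show (0 : ℝ) < δ / 2 by positivity)).and
      (eventually_ge_atTop 1)
    obtain ⟨L, hL, hL'⟩ := h2.exists
    exact ⟨L, hL', hL⟩
  -- choice of the number of windows
  obtain ⟨i, hi⟩ := ((costIII_tendsto k L hk).eventually_lt_const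
    (show (0 : ℝ) < δ / 2 by positivity)).exists
  have hII : ∀ a : ℕ, _ := fun a => typeII S hS (n := L + w * a) (x := L + w * (a + 1))
    (by omega) (by rw [mul_add]; omega) k
  choose TII hTII1 hTII2 hTII3 using hII
  obtain ⟨TIII, hTIII1, hTIII2, hTIII3⟩ := typeIII S hS (n := L + w * i) (by omega)
    (4 ^ L + k * i + k) k
  rw [hS3] at hTIII1
  refine ⟨((Finset.range i).biUnion fun a => (TII a).image fun l => (l, L + w * a)) ∪
    TIII.image fun l => (l, L + w * i), 4 ^ L + k * i + k, ?_, ?_, ?_⟩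
  · intro q hq
    rw [Finset.mem_union, Finset.mem_biUnion] at hq
    rcases hq with ⟨a, _, hq⟩ | hq
    · rw [Finset.mem_image] at hq
      obtain ⟨l, hl, rfl⟩ := hq
      exact ⟨(hTII2 a l hl).1, (hTII2 a l hl).2, by simp only; omega⟩
    · rw [Finset.mem_image] at hq
      obtain ⟨l, hl, rfl⟩ := hq
      exact ⟨(hTIII2 l hl).1, (hTIII2 l hl).2, by simp only; omega⟩
  · have hsumI : ∀ (A : Finset (List G)) (n : ℕ),
        ∑ q ∈ A.image (fun l => (l, n)), (4 / 25 : ℝ) ^ q.2 = A.card * (4 / 25 : ℝ) ^ n := by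
      intro A n
      rw [Finset.sum_image (fun a _ b _ hab => (Prod.ext_iff.1 hab).1)]
      simp
    refine (sum_union_le' _ (fun _ => by positivity) _ _).trans ?_
    have h1 : ∑ q ∈ (Finset.range i).biUnion (fun a => (TII a).image fun l => (l, L + w * a)),
        (4 / 25 : ℝ) ^ q.2 ≤ ∑ a ∈ Finset.range i, costII k w (L + w * a) := by
      refine (sum_biUnion_le' _ (fun _ => by positivity) _ _).trans ?_
      refine Finset.sum_le_sum fun a _ => ?_
      rw [hsumI, costII]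
      have h2 : ((TII a).card : ℝ) ≤
          (2 * (((L + w * a : ℕ) : ℝ) + w)) ^ k * (k * 4 ^ (L + w * a + w) + 1) := by
        have h3 := hTII1 a
        rw [hS3] at h3
        have h4 : ((TII a).card : ℝ) ≤ (((2 * (L + w * (a + 1))) ^ k *
          (k * (3 + 1) ^ (L + w * (a + 1)) + 1) : ℕ) : ℝ) := by exact_mod_cast h3
        refine h4.trans (le_of_eq ?_)
        rw [mul_add w a 1, mul_one, ← add_assoc]
        push_cast
        norm_num
      exact mul_le_mul_of_nonneg_right h2 (by positivity)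
    have h2 : ∑ a ∈ Finset.range i, costII k w (L + w * a) ≤ ∑' m, costII k w (m + L) := by
      have h3 : Summable fun m => costII k w (m + L) := (summable_nat_add_iff L).2
        (summable_costII k w)
      have h4 : ∑ a ∈ Finset.range i, costII k w (L + w * a) =
          ∑ m ∈ (Finset.range i).image (fun a => w * a), costII k w (m + L) := by
        rw [Finset.sum_image (fun a _ b _ hab => Nat.eq_of_mul_eq_mul_left hw1 hab)]
        exact Finset.sum_congr rfl fun a _ => by rw [add_comm]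
      rw [h4]
      exact h3.sum_le_tsum _ fun m _ => costII_nonneg _ _ _
    have h3 : ∑ q ∈ TIII.image (fun l => (l, L + w * i)), (4 / 25 : ℝ) ^ q.2 ≤
        ((2 * 2 ^ (4 ^ L + k * i + k)) ^ k * (3 * 2 ^ (4 ^ L + k * i + k) + 1) : ℝ) *
        (4 / 25) ^ (L + k * (k + 1) * i) := by
      rw [hsumI]
      have h4 : (TIII.card : ℝ) ≤
          ((2 * 2 ^ (4 ^ L + k * i + k)) ^ k * (3 * 2 ^ (4 ^ L + k * i + k) + 1) : ℝ) := by
        exact_mod_cast hTIII1
      exact mul_le_mul_of_nonneg_right h4 (by positivity)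
    linarith
  · intro H hE hH0 hH
    obtain ⟨K, hHK, hK⟩ := exists_index hE hH0 _ hH
    have hEK : Dbl K := fun L hL => hE L (hHK.trans hL)
    have hsep : ∀ l, Sep l K → Sep l H := fun l h =>
      Sep.mono (D' := (⊤ : Subgroup G)) (fun s _ => trivial) (inf_le_left.trans hHK) h
    have hK' : K.index = 2 ^ ((S.card + 1) ^ L + k * i + k) := by rw [hS3, hK]
    rcases dichotomy S hS (w := w) i K hK' with ⟨a, ha, h⟩ | h
    · obtain ⟨l, hl1, hl2⟩ := hTII3 a K h
      refine ⟨(l, L + w * a), ?_, hsep l hl2⟩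
      rw [Finset.mem_union, Finset.mem_biUnion]
      exact Or.inl ⟨a, Finset.mem_range.2 ha, Finset.mem_image_of_mem _ hl1⟩
    · obtain ⟨l, hl1, hl2⟩ := hTIII3 K hEK hK h
      refine ⟨(l, L + w * i), ?_, hsep l hl2⟩
      rw [Finset.mem_union]
      exact Or.inr (Finset.mem_image_of_mem _ hl1)

end Pool.Agent.W351.GS
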