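import Pool.Agent.W351.GS8

set_option autoImplicit false

namespace Pool.Agent.W351.GS

open Subgroup

variable {G : Type*} [Group G]

/-- subgroups of an abelian group with `k` generators have `k` generators -/
theorem abelian_gens (l : List G) : (∀ a ∈ l, ∀ b ∈ l, a * b = b * a) →
    ∀ B : Subgroup G, B ≤ closure {x | x ∈ l} →
      ∃ T : Finset G, T.card ≤ l.length ∧ closure (T : Set G) = B := by
  classical
  induction l with
  | nil =>
    intro _ B hB
    refine ⟨∅, by simp, ?_⟩
    rw [show {x : G | x ∈ ([] : List G)} = ∅ by ext; simp, Subgroup.closure_empty] at hB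
    rw [Finset.coe_empty, Subgroup.closure_empty, eq_comm, eq_bot_iff]
    exact hB
  | cons a l ih =>
    intro hc B hB
    set A' := closure {x : G | x ∈ l} with hA'
    have hcomm : ∀ c ∈ A', a * c = c * a := by
      intro c hc'
      induction hc' using Subgroup.closure_induction with
      | mem x hx => exact hc a List.mem_cons_self x (List.mem_cons_of_mem _ hx)
      | one => simp
      | mul x y _ _ hx hy => rw [← mul_assoc, hx, mul_assoc, hy, mul_assoc]
      | inv x _ hx =>
        have : Commute a x := hx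
        exact this.inv_right
    have hcommz : ∀ c ∈ A', ∀ n : ℤ, Commute (a ^ n) c := fun c hc' n =>
      (show Commute a c from hcomm c hc').zpow_left n
    have hform : ∀ g ∈ closure {x : G | x ∈ a :: l}, ∃ n : ℤ, ∃ c ∈ A', g = a ^ n * c := by
      intro g hg
      induction hg using Subgroup.closure_induction with
      | mem x hx =>
        rcases List.mem_cons.1 hx with rfl | hx
        · exact ⟨1, 1, A'.one_mem, by simp⟩
        · exact ⟨0, x, subset_closure hx, by simp⟩
      | one => exact ⟨0, 1, A'.one_mem, by simp⟩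
      | mul x y _ _ hx hy =>
        obtain ⟨n, c, hc1, rfl⟩ := hx
        obtain ⟨m, d, hd1, rfl⟩ := hy
        refine ⟨n + m, c * d, A'.mul_mem hc1 hd1, ?_⟩
        have := (hcommz c hc1 m).eq
        rw [zpow_add]
        calc a ^ n * c * (a ^ m * d) = a ^ n * (c * a ^ m) * d := by group
          _ = a ^ n * (a ^ m * c) * d := by rw [this]
          _ = _ := by group
      | inv x _ hx =>
        obtain ⟨n, c, hc1, rfl⟩ := hx
        refine ⟨-n, c⁻¹, A'.inv_mem hc1, ?_⟩
        have := (hcommz c hc1 n).eq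
        rw [this]; group
    let Z : AddSubgroup ℤ :=
      { carrier := {n | ∃ c ∈ A', a ^ n * c ∈ B}
        zero_mem' := ⟨1, A'.one_mem, by simp [B.one_mem]⟩
        add_mem' := by
          rintro n m ⟨c, hc1, hc2⟩ ⟨d, hd1, hd2⟩
          refine ⟨c * d, A'.mul_mem hc1 hd1, ?_⟩
          have := (hcommz c hc1 m).eq
          have h2 : a ^ (n + m) * (c * d) = (a ^ n * c) * (a ^ m * d) := by
            rw [zpow_add]
            calc a ^ n * a ^ m * (c * d) = a ^ n * (a ^ m * c) * d := by group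
              _ = a ^ n * (c * a ^ m) * d := by rw [this]
              _ = _ := by group
          rw [h2]
          exact B.mul_mem hc2 hd2
        neg_mem' := by
          rintro n ⟨c, hc1, hc2⟩
          refine ⟨c⁻¹, A'.inv_mem hc1, ?_⟩
          have := (hcommz c hc1 n).eq
          have h2 : a ^ (-n) * c⁻¹ = (a ^ n * c)⁻¹ := by rw [this]; group
          rw [h2]
          exact B.inv_mem hc2 }
    obtain ⟨n₀, hn₀⟩ := Int.subgroup_cyclic Z
    have hn₀Z : n₀ ∈ Z := by
      rw [hn₀]; exact AddSubgroup.subset_closure rfl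
    obtain ⟨c₀, hc₀, hb₀⟩ := hn₀Z
    obtain ⟨T', hT'1, hT'2⟩ := ih
      (fun x hx y hy => hc x (List.mem_cons_of_mem _ hx) y (List.mem_cons_of_mem _ hy))
      (B ⊓ A') inf_le_right
    refine ⟨insert (a ^ n₀ * c₀) T', ?_, ?_⟩
    · rw [List.length_cons]
      exact (Finset.card_insert_le _ _).trans (by omega)
    · apply le_antisymm
      · rw [closure_le, Finset.coe_insert, Set.insert_subset_iff]
        refine ⟨hb₀, fun t ht => ?_⟩
        have : t ∈ B ⊓ A' := by rw [← hT'2]; exact subset_closure ht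
        exact this.1
      · intro b hb
        obtain ⟨n, c, hc1, hbc⟩ := hform b (hB hb)
        have hnZ : n ∈ Z := ⟨c, hc1, by rw [← hbc]; exact hb⟩
        rw [hn₀, AddSubgroup.mem_closure_singleton] at hnZ
        obtain ⟨m, hm⟩ := hnZ
        set b₀ := a ^ n₀ * c₀ with hb₀'
        have hpow : b₀ ^ m = a ^ n * c₀ ^ m := by
          rw [hb₀', (hcommz c₀ hc₀ n₀).mul_zpow, ← zpow_mul, ← hm, smul_eq_mul, mul_comm m]
        have h3 : (b₀ ^ m)⁻¹ * b = (c₀ ^ m)⁻¹ * c := by
          rw [hpow, hbc]; group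
        have h4 : (b₀ ^ m)⁻¹ * b ∈ B ⊓ A' := by
          refine ⟨B.mul_mem (B.inv_mem (B.zpow_mem hb₀ m)) hb, ?_⟩
          rw [h3]
          exact A'.mul_mem (A'.inv_mem (A'.zpow_mem hc₀ m)) hc1
        rw [← hT'2] at h4
        have h5 : b = b₀ ^ m * ((b₀ ^ m)⁻¹ * b) := by group
        rw [h5]
        refine mul_mem (zpow_mem (subset_closure ?_) m) (closure_mono ?_ h4)
        · simp
        · rw [Finset.coe_insert]; exact Set.subset_insert _ _

theorem gen (X : Finset G) (hX : closure (X : Set G) = ⊤) (H : Subgroup G) (hH : H.index ≠ 0)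
    (l : List G) (hc : ∀ a ∈ l, ∀ b ∈ l, a * b = b * a)
    (hcx : ∀ a ∈ l, ∀ b ∈ l, ∀ x ∈ X, a * (x * b * x⁻¹) = (x * b * x⁻¹) * a) (hs : Sep l H) :
    ∃ T : Finset G, closure (T : Set G) = H ∧
      2 ^ l.length * T.card ≤ (l.length + l.length * X.card + X.card) * H.index := by
  classical
  have hfi : H.FiniteIndex := ⟨hH⟩
  have hfin : Finite (G ⧸ H) := inferInstance
  set A := closure {x : G | x ∈ l} with hA
  let Orb := MulAction.orbitRel.Quotient A (G ⧸ H)
  have hOfin : Fintype Orb := Fintype.ofFinite _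
  let mk : G ⧸ H → Orb := Quotient.mk _
  have hmk : ∀ (a : G) (_ : a ∈ A) (ω : G ⧸ H), mk (a • ω) = mk ω := by
    intro a ha ω
    apply Quotient.sound
    exact ⟨⟨a, ha⟩, rfl⟩
  let ρ : G ⧸ H → G ⧸ H := fun ω => (mk ω).out
  have hρ : ∀ ω, ∃ a ∈ A, a • ρ ω = ω := by
    intro ω
    have h1 : mk (ρ ω) = mk ω := Quotient.out_eq _
    have h2 : (MulAction.orbitRel A (G ⧸ H)) ω (ρ ω) := Quotient.exact h1.symm
    obtain ⟨⟨a, ha⟩, h3⟩ := h2
    exact ⟨a, ha, h3⟩
  choose α hαA hα using hρ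
  let τ₀ : G ⧸ H → G := Quotient.out
  have hτ₀ : ∀ ω, ((τ₀ ω : G) : G ⧸ H) = ω := fun ω => Quotient.out_eq ω
  let τ : G ⧸ H → G := fun ω => α ω * τ₀ (ρ ω)
  have hτ : ∀ ω, ((τ ω : G) : G ⧸ H) = ω := by
    intro ω
    calc ((α ω * τ₀ (ρ ω) : G) : G ⧸ H) = α ω • ((τ₀ (ρ ω) : G) : G ⧸ H) := rfl
      _ = ω := by rw [hτ₀, hα]
  let h : G ⧸ H → G → G := fun ω g => (τ (g • ω))⁻¹ * g * τ ω
  have hmul : ∀ ω g g', h ω (g * g') = h (g' • ω) g * h ω g' := by
    intro ω g g'
    simp only [h, mul_smul]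
    group
  have hmem : ∀ ω g, h ω g ∈ H := by
    intro ω g
    have h1 : ((g * τ ω : G) : G ⧸ H) = g • ω := by
      calc ((g * τ ω : G) : G ⧸ H) = g • ((τ ω : G) : G ⧸ H) := rfl
        _ = _ := by rw [hτ]
    have h2 := hτ (g • ω)
    rw [← h1] at h2
    rw [QuotientGroup.eq] at h2
    simp only [h]
    rw [mul_assoc, ← h1]
    exact h2
  -- stabilizers
  let B : G ⧸ H → Subgroup G := fun r => A ⊓ MulAction.stabilizer G r
  have hB : ∀ r, ∃ T : Finset G, T.card ≤ l.length ∧ closure (T : Set G) = B r := fun r =>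
    abelian_gens l hc (B r) inf_le_left
  choose TB hTB1 hTB2 using hB
  let T1 : G ⧸ H → Finset G := fun r => (TB r).image fun σ => (τ₀ r)⁻¹ * σ * τ₀ r
  let T2 : G ⧸ H → Finset G := fun r =>
    (l.toFinset ×ˢ X).image fun q => h r (q.2 * q.1 * q.2⁻¹)
  let T3 : G ⧸ H → Finset G := fun r => X.image fun x => h r x
  let T : Finset G := (Finset.univ : Finset Orb).biUnion fun O => T1 O.out ∪ T2 O.out ∪ T3 O.out
  set K := closure (T : Set G) with hK
  have hTK : ∀ ω, (∀ t ∈ T1 (ρ ω), t ∈ K) ∧ (∀ t ∈ T2 (ρ ω), t ∈ K) ∧ (∀ t ∈ T3 (ρ ω), t ∈ K) := by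
    intro ω
    refine ⟨fun t ht => subset_closure ?_, fun t ht => subset_closure ?_,
      fun t ht => subset_closure ?_⟩
    all_goals
      rw [Finset.mem_coe, Finset.mem_biUnion]
      refine ⟨mk ω, Finset.mem_univ _, ?_⟩
      rw [Finset.mem_union, Finset.mem_union]
    · exact Or.inl (Or.inl ht)
    · exact Or.inl (Or.inr ht)
    · exact Or.inr ht
  -- inverse rule
  have hone : ∀ ω, h ω 1 = 1 := by
    intro ω
    simp only [h, one_smul]; group
  have hinv : ∀ ω g, h ω g⁻¹ = (h (g⁻¹ • ω) g)⁻¹ := by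
    intro ω g
    have h1 := hmul ω g g⁻¹
    rw [mul_inv_cancel, hone] at h1
    exact eq_inv_of_mul_eq_one_right h1.symm
  -- step 1
  have s1 : ∀ ω, ∀ a ∈ A, h ω a ∈ K := by
    intro ω a ha
    have hr : ρ (a • ω) = ρ ω := by simp only [ρ, hmk a ha ω]
    set β := (α (a • ω))⁻¹ * a * α ω with hβ
    have hβB : β ∈ B (ρ ω) := by
      refine ⟨A.mul_mem (A.mul_mem (A.inv_mem (hαA _)) ha) (hαA _), ?_⟩
      show β • ρ ω = ρ ω
      rw [hβ, mul_smul, mul_smul, hα, inv_smul_eq_iff, ← hr, hα]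
    have h1 : h ω a = (τ₀ (ρ ω))⁻¹ * β * τ₀ (ρ ω) := by
      simp only [h, τ, hr, hβ]
      group
    have h2 : (B (ρ ω)).map (MulAut.conj (τ₀ (ρ ω))⁻¹).toMonoidHom ≤ K := by
      rw [← hTB2 (ρ ω), MonoidHom.map_closure, closure_le]
      rintro _ ⟨σ, hσ, rfl⟩
      refine (hTK ω).1 _ ?_
      rw [Finset.mem_image]
      refine ⟨σ, hσ, ?_⟩
      simp
    rw [h1]
    refine h2 ⟨β, hβB, ?_⟩
    simp
  -- step 2
  have hAc : ∀ a ∈ A, ∀ b ∈ l, ∀ x ∈ X, a * (x * b * x⁻¹) = (x * b * x⁻¹) * a := by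
    intro a ha b hb x hx
    induction ha using Subgroup.closure_induction with
    | mem y hy => exact hcx y hy b hb x hx
    | one => simp
    | mul y z _ _ hy hz => rw [mul_assoc, hz, ← mul_assoc, hy, mul_assoc]
    | inv y _ hy =>
      have : Commute y (x * b * x⁻¹) := hy
      exact this.inv_left
  have s2 : ∀ b ∈ A, ∀ x ∈ X, ∀ ω, h ω (x * b * x⁻¹) ∈ K := by
    intro b hb x hx
    induction hb using Subgroup.closure_induction with
    | mem b hb =>
      intro ω
      set c := x * b * x⁻¹ with hcdef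
      have h0 : α ω * c = c * α ω := hAc _ (hαA ω) b hb x hx
      have h1 : c = α ω * (c * (α ω)⁻¹) := by
        rw [← mul_assoc, h0, mul_assoc, mul_inv_cancel, mul_one]
      have h2 : (α ω)⁻¹ • ω = ρ ω := by rw [inv_smul_eq_iff, hα]
      have h3 : h ω c = h ((c * (α ω)⁻¹) • ω) (α ω) * (h ((α ω)⁻¹ • ω) c * h ω (α ω)⁻¹) := by
        rw [← hmul, ← hmul, ← h1]
      rw [h3, h2]
      refine K.mul_mem (s1 _ _ (hαA ω)) (K.mul_mem ((hTK ω).2.1 _ ?_) (s1 _ _ (A.inv_mem (hαA ω))))
      rw [Finset.mem_image]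
      exact ⟨(b, x), by rw [Finset.mem_product]; exact ⟨by simpa using hb, hx⟩, rfl⟩
    | one =>
      intro ω
      rw [mul_one, mul_inv_cancel, hone]; exact K.one_mem
    | mul y z _ _ hy hz =>
      intro ω
      have : x * (y * z) * x⁻¹ = (x * y * x⁻¹) * (x * z * x⁻¹) := by group
      rw [this, hmul]
      exact K.mul_mem (hy _) (hz _)
    | inv y _ hy =>
      intro ω
      have : x * y⁻¹ * x⁻¹ = (x * y * x⁻¹)⁻¹ := by group
      rw [this, hinv]
      exact K.inv_mem (hy _)
  -- step 3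
  have s3 : ∀ x ∈ X, ∀ ω, h ω x ∈ K := by
    intro x hx ω
    have h1 : h ω x = h ((x * (α ω)⁻¹) • ω) (x * α ω * x⁻¹) *
        (h ((α ω)⁻¹ • ω) x * h ω (α ω)⁻¹) := by
      rw [← hmul, ← hmul]; congr 1; group
    have h2 : (α ω)⁻¹ • ω = ρ ω := by rw [inv_smul_eq_iff, hα]
    rw [h1, h2]
    refine K.mul_mem (s2 _ (hαA ω) x hx _) (K.mul_mem ((hTK ω).2.2 _ ?_)
      (s1 _ _ (A.inv_mem (hαA ω))))
    rw [Finset.mem_image]
    exact ⟨x, hx, rfl⟩
  -- step 4
  have s4 : ∀ g : G, ∀ ω, h ω g ∈ K := by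
    intro g
    have hg : g ∈ closure (X : Set G) := by rw [hX]; trivial
    induction hg using Subgroup.closure_induction with
    | mem x hx => exact s3 x hx
    | one => intro ω; rw [hone]; exact K.one_mem
    | mul x y _ _ hx hy => intro ω; rw [hmul]; exact K.mul_mem (hx _) (hy _)
    | inv x _ hx => intro ω; rw [hinv]; exact K.inv_mem (hx _)
  refine ⟨T, le_antisymm ?_ ?_, ?_⟩
  · rw [closure_le]
    intro t ht
    rw [Finset.mem_coe, Finset.mem_biUnion] at ht
    obtain ⟨O, _, ht⟩ := ht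
    rw [Finset.mem_union, Finset.mem_union] at ht
    rcases ht with (ht | ht) | ht
    · rw [Finset.mem_image] at ht
      obtain ⟨σ, hσ, rfl⟩ := ht
      have h1 : σ ∈ B O.out := by rw [← hTB2]; exact subset_closure hσ
      have h2 : σ • (O.out : G ⧸ H) = O.out := h1.2
      have h3 : ((σ * τ₀ O.out : G) : G ⧸ H) = ((τ₀ O.out : G) : G ⧸ H) := by
        calc ((σ * τ₀ O.out : G) : G ⧸ H) = σ • ((τ₀ O.out : G) : G ⧸ H) := rfl
          _ = _ := by rw [hτ₀, h2]
      rw [eq_comm, QuotientGroup.eq] at h3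
      rw [mul_assoc]; exact h3
    · rw [Finset.mem_image] at ht
      obtain ⟨q, _, rfl⟩ := ht
      exact hmem _ _
    · rw [Finset.mem_image] at ht
      obtain ⟨q, _, rfl⟩ := ht
      exact hmem _ _
  · intro y hy
    set ω₁ : G ⧸ H := ((1 : G) : G ⧸ H) with hω₁
    have ht : τ ω₁ ∈ H := by
      have := hτ ω₁
      rw [hω₁, eq_comm, QuotientGroup.eq] at this
      simpa using this
    have h1 : (τ ω₁ * y * (τ ω₁)⁻¹) • ω₁ = ω₁ := by
      rw [hω₁]
      show ((τ ω₁ * y * (τ ω₁)⁻¹ * 1 : G) : G ⧸ H) = ((1 : G) : G ⧸ H)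
      rw [eq_comm, QuotientGroup.eq, inv_one, one_mul, mul_one]
      exact H.mul_mem (H.mul_mem ht hy) (H.inv_mem ht)
    have h2 := s4 (τ ω₁ * y * (τ ω₁)⁻¹) ω₁
    simp only [h] at h2
    rw [h1] at h2
    have h3 : (τ ω₁)⁻¹ * (τ ω₁ * y * (τ ω₁)⁻¹) * τ ω₁ = y := by group
    rwa [h3] at h2
  · have hcardT : T.card ≤ Fintype.card Orb * (l.length + l.length * X.card + X.card) := by
      refine Finset.card_biUnion_le_card_mul _ _ _ fun O _ => ?_
      refine (Finset.card_union_le _ _).trans (Nat.add_le_add ((Finset.card_union_le _ _).trans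
        (Nat.add_le_add ?_ ?_)) ?_)
      · exact Finset.card_image_le.trans (hTB1 _)
      · refine Finset.card_image_le.trans ?_
        rw [Finset.card_product]
        exact Nat.mul_le_mul_right _ (List.toFinset_card_le l)
      · exact Finset.card_image_le
    have horb : 2 ^ l.length * Fintype.card Orb ≤ H.index := by
      have hlen := length_Ws l
      let φ : Orb × Fin (Ws l).length → G ⧸ H := fun q => (((Ws l).get q.2 * τ₀ q.1.out : G) : G ⧸ H)
      have hφ1 : ∀ q, mk (φ q) = q.1 := by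
        intro q
        have h1 : (Ws l).get q.2 ∈ A := Ws_subset l (fun s hs => subset_closure hs) _
          (List.get_mem _ _)
        have h2 : φ q = (Ws l).get q.2 • (q.1.out : G ⧸ H) := by
          calc φ q = (Ws l).get q.2 • ((τ₀ q.1.out : G) : G ⧸ H) := rfl
            _ = _ := by rw [hτ₀]
        rw [h2, hmk _ h1]
        exact Quotient.out_eq _
      have hφ : Function.Injective φ := by
        intro q q' hqq
        have h1 : q.1 = q'.1 := by rw [← hφ1 q, ← hφ1 q', hqq]
        obtain ⟨O, i⟩ := q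
        obtain ⟨O', i'⟩ := q'
        simp only at h1
        subst h1
        have h2 := List.nodup_iff_injective_get.1 (hs (τ₀ O.out))
        have h3 : (⟨i.1, by rw [List.length_map]; exact i.2⟩ :
            Fin ((Ws l).map fun w => ((w * τ₀ O.out : G) : G ⧸ H)).length) =
            ⟨i'.1, by rw [List.length_map]; exact i'.2⟩ := by
          apply h2
          simp only [List.get_eq_getElem, List.getElem_map]
          exact hqq
        have h4 : i = i' := Fin.ext (by simpa using congrArg Fin.val h3)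
        rw [h4]
      have h5 := Nat.card_le_card_of_injective φ hφ
      rw [Nat.card_prod, Nat.card_eq_fintype_card, Nat.card_eq_fintype_card, Fintype.card_fin,
        hlen, mul_comm] at h5
      exact h5
    calc 2 ^ l.length * T.card ≤
          2 ^ l.length * (Fintype.card Orb * (l.length + l.length * X.card + X.card)) :=
          Nat.mul_le_mul_left _ hcardT
      _ = (2 ^ l.length * Fintype.card Orb) * (l.length + l.length * X.card + X.card) := by ring
      _ ≤ H.index * (l.length + l.length * X.card + X.card) := Nat.mul_le_mul_right _ horb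
      _ = _ := mul_comm _ _

end Pool.Agent.W351.GS
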